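import Mathlib

/-! H24 V, piece Q11: the abstract iteration of the sharp step (imports only Mathlib) -/

set_option linter.unusedVariables false

noncomputable section

namespace H24

open Finset

/-- the step property for all scales `r ≤ R` -/
def StepProp (S : Finset ℤ) (b : ℝ) (R : ℕ) (f : ℕ → ℝ) : Prop :=
  ∀ d r : ℕ, 24 ≤ r → d + 6 ≤ r → r ≤ R → (∀ x ∈ S, ∀ y ∈ S, |x - y| ≤ d ∨ 4 * (r : ℤ) + 20 ≤ |x - y|) →
    1000000 * b * r * f (r - 6 - d) ≤ 1 → f (2 * r + 5) ≤ 10 ^ 11 * b ^ 2 * (r : ℝ) ^ 2 * f (r - 6 - d) ^ 2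

/-- the squaring step for `Z(s) = 4 K s² f(s - 2d - 17)` -/
private theorem Q11_sq {S : Finset ℤ} {b : ℝ} {R : ℕ} {f : ℕ → ℝ} (hb : 1 ≤ b) (hf0 : ∀ t, 0 ≤ f t)
    (hstep : StepProp S b R f) {d ρ D : ℕ} (hρ : 20 ≤ ρ) (hDR : D ≤ R)
    (hsep : ∀ x ∈ S, ∀ y ∈ S, |x - y| ≤ d ∨ (D : ℤ) ≤ |x - y|) {s : ℕ} (hs : ρ + 2 * d + 17 ≤ s)
    (hsD : 4 * s + 20 ≤ D) (hZ : 4 * (10 ^ 11 * b ^ 2) * (s : ℝ) ^ 2 * f (s - 2 * d - 17) ≤ 1) :
    4 * (10 ^ 11 * b ^ 2) * ((2 * s : ℕ) : ℝ) ^ 2 * f (2 * s - 2 * d - 17) ≤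
      (4 * (10 ^ 11 * b ^ 2) * (s : ℝ) ^ 2 * f (s - 2 * d - 17)) ^ 2 := by
  obtain ⟨r, hr⟩ : ∃ r, r = s - d - 11 := ⟨_, rfl⟩
  have e1 : r - 6 - d = s - 2 * d - 17 := by omega
  have e2 : 2 * r + 5 = 2 * s - 2 * d - 17 := by omega
  have hF := hf0 (s - 2 * d - 17)
  have hrs : (r : ℝ) ≤ s := by
    have : r ≤ s := by omega
    exact_mod_cast this
  have hr0 : (0 : ℝ) ≤ r := Nat.cast_nonneg r
  have hs1 : (1 : ℝ) ≤ s := by
    have : 1 ≤ s := by omega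
    exact_mod_cast this
  have h1 := hstep d r (by omega) (by omega) (by omega) (by
    intro x hx y hy
    rcases hsep x hx y hy with h | h
    · exact Or.inl h
    · right
      have h2 : 4 * (r : ℤ) + 20 ≤ D := by
        have : 4 * r + 20 ≤ D := by omega
        exact_mod_cast this
      exact h2.trans h) (by
    rw [e1]
    refine le_trans ?_ hZ
    refine mul_le_mul_of_nonneg_right ?_ hF
    have h2 : b * r ≤ b ^ 2 * (s : ℝ) ^ 2 := by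
      have h3 : b ≤ b ^ 2 := by rw [sq]; exact le_mul_of_one_le_left (by linarith) hb
      have h4 : (r : ℝ) ≤ (s : ℝ) ^ 2 := by
        rw [sq]
        exact hrs.trans (le_mul_of_one_le_left (by linarith) hs1)
      exact mul_le_mul h3 h4 hr0 (by positivity)
    have h5 : 0 ≤ b * r := mul_nonneg (by linarith) hr0
    have h6 : 0 ≤ b ^ 2 * (s : ℝ) ^ 2 := by positivity
    have e3 : 4 * (10 ^ 11 * b ^ 2) * (s : ℝ) ^ 2 = 4 * 10 ^ 11 * (b ^ 2 * (s : ℝ) ^ 2) := by ring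
    have e4 : 1000000 * b * (r : ℝ) = 1000000 * (b * r) := by ring
    rw [e3, e4]
    nlinarith)
  rw [e1, e2] at h1
  have hr2 : (r : ℝ) ^ 2 ≤ (s : ℝ) ^ 2 := pow_le_pow_left₀ hr0 hrs 2
  have h2 : f (2 * s - 2 * d - 17) ≤ 10 ^ 11 * b ^ 2 * (s : ℝ) ^ 2 * f (s - 2 * d - 17) ^ 2 := by
    refine h1.trans (mul_le_mul_of_nonneg_right ?_ (sq_nonneg _))
    exact mul_le_mul_of_nonneg_left hr2 (by positivity)
  calc 4 * (10 ^ 11 * b ^ 2) * ((2 * s : ℕ) : ℝ) ^ 2 * f (2 * s - 2 * d - 17)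
      ≤ 4 * (10 ^ 11 * b ^ 2) * ((2 * s : ℕ) : ℝ) ^ 2 *
          (10 ^ 11 * b ^ 2 * (s : ℝ) ^ 2 * f (s - 2 * d - 17) ^ 2) :=
        mul_le_mul_of_nonneg_left h2 (by positivity)
    _ = (4 * (10 ^ 11 * b ^ 2) * (s : ℝ) ^ 2 * f (s - 2 * d - 17)) ^ 2 := by
        push_cast
        ring

private theorem Q11_iter {S : Finset ℤ} {b : ℝ} {R : ℕ} {f : ℕ → ℝ} (hb : 1 ≤ b) (hf0 : ∀ t, 0 ≤ f t)
    (hstep : StepProp S b R f) {d ρ D : ℕ} (hρ : 20 ≤ ρ) (hDR : D ≤ R)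
    (hsep : ∀ x ∈ S, ∀ y ∈ S, |x - y| ≤ d ∨ (D : ℤ) ≤ |x - y|) {κ : ℝ} (hκ0 : 0 ≤ κ)
    (h0 : 4 * (10 ^ 11 * b ^ 2) * ((ρ + 2 * d + 17 : ℕ) : ℝ) ^ 2 * f ρ ≤ Real.exp (-(κ / 2))) (j : ℕ)
    (hj : ∀ i < j, 4 * (2 ^ i * (ρ + 2 * d + 17)) + 20 ≤ D) :
    4 * (10 ^ 11 * b ^ 2) * ((2 ^ j * (ρ + 2 * d + 17) : ℕ) : ℝ) ^ 2 *
      f (2 ^ j * (ρ + 2 * d + 17) - 2 * d - 17) ≤ Real.exp (-(κ / 2 * 2 ^ j)) := by
  induction j with
  | zero =>
    simp only [pow_zero, one_mul, mul_one]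
    have e : ρ + 2 * d + 17 - 2 * d - 17 = ρ := by omega
    rw [e]
    exact h0
  | succ j ih =>
    have h1 := ih (fun i hi => hj i (by omega))
    set s := 2 ^ j * (ρ + 2 * d + 17) with hs
    have hle : ρ + 2 * d + 17 ≤ s := by
      rw [hs]
      exact Nat.le_mul_of_pos_left _ (by positivity)
    have h2 : Real.exp (-(κ / 2 * 2 ^ j)) ≤ 1 := by
      rw [Real.exp_le_one_iff]
      have : 0 ≤ κ / 2 * 2 ^ j := by positivity
      linarith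
    have h3 := Q11_sq hb hf0 hstep hρ hDR hsep hle (hj j (by omega)) (h1.trans h2)
    have e : 2 ^ (j + 1) * (ρ + 2 * d + 17) = 2 * s := by rw [hs]; ring
    rw [e]
    refine h3.trans ?_
    have hF := hf0 (s - 2 * d - 17)
    calc (4 * (10 ^ 11 * b ^ 2) * (s : ℝ) ^ 2 * f (s - 2 * d - 17)) ^ 2
        ≤ Real.exp (-(κ / 2 * 2 ^ j)) ^ 2 := pow_le_pow_left₀ (by positivity) h1 2
      _ = Real.exp (-(κ / 2 * 2 ^ (j + 1))) := by
          rw [← Real.exp_nat_mul]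
          congr 1
          push_cast
          ring

/-- RANGE LEMMA. Put `K = 10^11 b²`, `Z(s) = 4 K s² f(s - 2d - 17)` for `s ≥ sa := ρ + 2d + 17` (`≤ 4 ρ`). `Z(sa) ≤ 64 K ρ² exp(-κ) ≤ exp(-κ/2)`. If `4 s + 20 ≤ D` and `Z(s) ≤ 1` then, with `r = s - d - 11`,
`Z(2s) ≤ Z(s)²` (StepProp; `1000000 b r f ≤ 1` follows from `Z ≤ 1`; `2r + 5 = 2s - 2d - 17`). Let `J` be maximal with `4 * 2^(J-1) sa + 20 ≤ D`: `f(D) ≤ f(2^J sa - 2d - 17) ≤ Z(2^J sa) ≤ exp(-κ 2^(J-1))` and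
`2^(J-1) ≥ (D - 20)/(32 ρ)`. If there is no such `J ≥ 1` then `D ≤ 17 ρ` and `f D ≤ f ρ` is enough. -/
theorem range_lemma {S : Finset ℤ} {b : ℝ} {R : ℕ} {f : ℕ → ℝ} (hb : 1 ≤ b) (hf0 : ∀ t, 0 ≤ f t) (hf : Antitone f)
    (hstep : StepProp S b R f) {d ρ D : ℕ} (hdρ : d ≤ ρ) (hρ : 20 ≤ ρ) (hρD : ρ ≤ D) (hDR : D ≤ R)
    (hsep : ∀ x ∈ S, ∀ y ∈ S, |x - y| ≤ d ∨ (D : ℤ) ≤ |x - y|) {κ : ℝ} (hκ : f ρ ≤ Real.exp (-κ))
    (hκ2 : 2 * Real.log (64 * 10 ^ 11 * b ^ 2 * (ρ : ℝ) ^ 2) ≤ κ) :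
    f D ≤ Real.exp (-(κ * (D / (256 * ρ)))) := by
  have hρ0 : (20 : ℝ) ≤ ρ := by exact_mod_cast hρ
  have hρp : (0 : ℝ) < ρ := by linarith
  have hD0 : (0 : ℝ) ≤ D := Nat.cast_nonneg D
  have hbb : 1 ≤ b ^ 2 := one_le_pow₀ hb
  have hρρ : 1 ≤ (ρ : ℝ) ^ 2 := one_le_pow₀ (by linarith)
  set M : ℝ := 64 * 10 ^ 11 * b ^ 2 * (ρ : ℝ) ^ 2 with hM
  have hM1 : 1 ≤ M := by
    have h1 : 1 ≤ b ^ 2 * (ρ : ℝ) ^ 2 := one_le_mul_of_one_le_of_one_le hbb hρρ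
    have h2 : M = 64 * 10 ^ 11 * (b ^ 2 * (ρ : ℝ) ^ 2) := by rw [hM]; ring
    rw [h2]
    linarith
  have hlog : 0 ≤ Real.log M := Real.log_nonneg hM1
  have hκ0 : 0 ≤ κ := by linarith
  -- the start
  have hsa : (((ρ + 2 * d + 17 : ℕ)) : ℝ) ≤ 4 * ρ := by
    have : ρ + 2 * d + 17 ≤ 4 * ρ := by omega
    exact_mod_cast this
  have h0 : 4 * (10 ^ 11 * b ^ 2) * ((ρ + 2 * d + 17 : ℕ) : ℝ) ^ 2 * f ρ ≤ Real.exp (-(κ / 2)) := by
    have h1 : ((ρ + 2 * d + 17 : ℕ) : ℝ) ^ 2 ≤ (4 * ρ) ^ 2 := pow_le_pow_left₀ (by positivity) hsa 2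
    calc 4 * (10 ^ 11 * b ^ 2) * ((ρ + 2 * d + 17 : ℕ) : ℝ) ^ 2 * f ρ
        ≤ 4 * (10 ^ 11 * b ^ 2) * (4 * ρ) ^ 2 * Real.exp (-κ) := by
          refine mul_le_mul ?_ hκ (hf0 ρ) (by positivity)
          exact mul_le_mul_of_nonneg_left h1 (by positivity)
      _ = M * Real.exp (-κ) := by rw [hM]; ring
      _ ≤ Real.exp (κ / 2) * Real.exp (-κ) := by
          refine mul_le_mul_of_nonneg_right ?_ (Real.exp_pos _).le
          calc M = Real.exp (Real.log M) := (Real.exp_log (by linarith)).symm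
            _ ≤ Real.exp (κ / 2) := Real.exp_le_exp.2 (by linarith)
      _ = Real.exp (-(κ / 2)) := by
          rw [← Real.exp_add]
          congr 1
          ring
  -- the number of doublings
  have hex : ∃ j : ℕ, D < 4 * (2 ^ j * (ρ + 2 * d + 17)) + 20 := by
    refine ⟨D, ?_⟩
    have h1 : D < 2 ^ D := Nat.lt_two_pow_self
    have h2 : 2 ^ D ≤ 2 ^ D * (ρ + 2 * d + 17) := Nat.le_mul_of_pos_right _ (by omega)
    omega
  obtain ⟨J, hJ, hJm⟩ : ∃ J : ℕ, D < 4 * (2 ^ J * (ρ + 2 * d + 17)) + 20 ∧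
      ∀ i < J, 4 * (2 ^ i * (ρ + 2 * d + 17)) + 20 ≤ D := by
    classical
    refine ⟨Nat.find hex, Nat.find_spec hex, fun i hi => ?_⟩
    have := Nat.find_min hex hi
    omega
  have hit := Q11_iter hb hf0 hstep hρ hDR hsep hκ0 h0 J hJm
  rcases Nat.eq_zero_or_pos J with hJ0 | hJ0
  · -- short range
    rw [hJ0, pow_zero, one_mul] at hJ
    have h1 : (D : ℝ) ≤ 17 * ρ := by
      have : D ≤ 17 * ρ := by omega
      exact_mod_cast this
    refine (hf hρD).trans (hκ.trans (Real.exp_le_exp.2 ?_))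
    have h2 : (D : ℝ) / (256 * ρ) ≤ 1 := by
      rw [div_le_one (by positivity)]
      linarith
    have h3 := mul_le_mul_of_nonneg_left h2 hκ0
    linarith
  · obtain ⟨J', rfl⟩ : ∃ J', J = J' + 1 := ⟨J - 1, by omega⟩
    have hJ1 := hJm J' (by omega)
    set s := 2 ^ (J' + 1) * (ρ + 2 * d + 17) with hs
    have hs2 : s = 2 * (2 ^ J' * (ρ + 2 * d + 17)) := by rw [hs]; ring
    have hsD : s - 2 * d - 17 ≤ D := by omega
    have hs1 : 1 ≤ (s : ℝ) := by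
      have h1 : 1 ≤ s := by
        rw [hs]
        exact Nat.one_le_iff_ne_zero.2 (by positivity)
      exact_mod_cast h1
    have hF := hf0 (s - 2 * d - 17)
    have h1 : f (s - 2 * d - 17) ≤ 4 * (10 ^ 11 * b ^ 2) * (s : ℝ) ^ 2 * f (s - 2 * d - 17) := by
      refine le_mul_of_one_le_left hF ?_
      have h2 : 1 ≤ b ^ 2 * (s : ℝ) ^ 2 :=
        one_le_mul_of_one_le_of_one_le hbb (one_le_pow₀ hs1)
      have h3 : 4 * (10 ^ 11 * b ^ 2) * (s : ℝ) ^ 2 = 4 * 10 ^ 11 * (b ^ 2 * (s : ℝ) ^ 2) := by ring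
      rw [h3]
      linarith
    refine (hf hsD).trans ((h1.trans hit).trans (Real.exp_le_exp.2 ?_))
    have h4 : (D : ℝ) ≤ 16 * ρ * 2 ^ (J' + 1) + 20 := by
      have h5 : (D : ℝ) < 4 * (s : ℝ) + 20 := by exact_mod_cast hJ
      have h6 : (s : ℝ) ≤ 2 ^ (J' + 1) * (4 * ρ) := by
        rw [hs]
        push_cast
        push_cast at hsa
        exact mul_le_mul_of_nonneg_left hsa (by positivity)
      linarith
    have hD37 : (148 : ℝ) ≤ D := by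
      have h7 : ρ + 2 * d + 17 ≤ 2 ^ J' * (ρ + 2 * d + 17) := Nat.le_mul_of_pos_left _ (by positivity)
      have : 148 ≤ D := by omega
      exact_mod_cast this
    have h8 : (D : ℝ) / (256 * ρ) ≤ 2 ^ (J' + 1) / 2 := by
      rw [div_le_div_iff₀ (by positivity) (by norm_num)]
      linarith
    have h9 := mul_le_mul_of_nonneg_left h8 hκ0
    have h10 : κ * (2 ^ (J' + 1) / 2) = κ / 2 * 2 ^ (J' + 1) := by ring
    linarith

/-- induction on the number of distances in `(ρ, P)` -/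
private theorem Q11_chain {S : Finset ℤ} {b : ℝ} {R : ℕ} {f : ℕ → ℝ} (hb : 1 ≤ b) (hf0 : ∀ t, 0 ≤ f t)
    (hf : Antitone f) (hstep : StepProp S b R f) {ρ0 P : ℕ} (hρ : 20 ≤ ρ0) (hPR : P ≤ R)
    {Δ : Finset ℕ} (hΔ : ∀ x ∈ S, ∀ y ∈ S, (x - y).natAbs ∈ Δ) {A : ℝ}
    (hA : A = 2 * Real.log (64 * 10 ^ 11 * b ^ 2) + 4 * Real.log ρ0 + 4) (N : ℕ) :
    ∀ (ρ : ℕ) (κ : ℝ), ρ0 ≤ ρ → ρ ≤ P → (Δ.filter fun δ => ρ < δ ∧ δ < P).card ≤ N →
      f ρ ≤ Real.exp (-κ) → A * 256 ^ (N + 1) * (ρ / ρ0) ≤ κ →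
      f P ≤ Real.exp (-(κ * P / (ρ * 256 ^ (N + 1)))) := by
  have hρ0 : (20 : ℝ) ≤ ρ0 := by exact_mod_cast hρ
  have hbb : 1 ≤ b ^ 2 := one_le_pow₀ hb
  have hlog1 : 0 ≤ Real.log (64 * 10 ^ 11 * b ^ 2) := Real.log_nonneg (by linarith)
  have hlog2 : 0 ≤ Real.log (ρ0 : ℝ) := Real.log_nonneg (by linarith)
  have hA4 : 4 ≤ A := by rw [hA]; linarith
  -- the hypothesis of the range lemma
  have key : ∀ (ρ : ℕ) (κ : ℝ) (N : ℕ), ρ0 ≤ ρ → A * 256 ^ (N + 1) * (ρ / ρ0) ≤ κ →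
      2 * Real.log (64 * 10 ^ 11 * b ^ 2 * (ρ : ℝ) ^ 2) ≤ κ := by
    intro ρ κ N hρρ hκ
    have h1 : (ρ0 : ℝ) ≤ ρ := by exact_mod_cast hρρ
    set t : ℝ := ρ / ρ0 with ht
    have ht1 : 1 ≤ t := by
      rw [ht, le_div_iff₀ (by linarith)]
      linarith
    have hρt : (ρ : ℝ) = ρ0 * t := by
      rw [ht]
      field_simp
    have h2 : Real.log (64 * 10 ^ 11 * b ^ 2 * (ρ : ℝ) ^ 2) =
        Real.log (64 * 10 ^ 11 * b ^ 2) + 2 * (Real.log ρ0 + Real.log t) := by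
      have hρpos : (0 : ℝ) < ρ := by linarith
      have hlr : Real.log (ρ : ℝ) = Real.log ρ0 + Real.log t := by
        rw [← Real.log_mul (by linarith) (by linarith), ← hρt]
      have hc : (64 * 10 ^ 11 * b ^ 2 : ℝ) ≠ 0 := by
        have : (0 : ℝ) < 64 * 10 ^ 11 * b ^ 2 := by linarith
        exact this.ne'
      rw [Real.log_mul (x := 64 * 10 ^ 11 * b ^ 2) (y := (ρ : ℝ) ^ 2) hc (pow_ne_zero 2 hρpos.ne'),
        Real.log_pow, hlr]
      push_cast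
      ring
    have h3 : Real.log t ≤ t - 1 := Real.log_le_sub_one_of_pos (by linarith)
    have h4 : A * 1 * t ≤ A * 256 ^ (N + 1) * t := by
      refine mul_le_mul_of_nonneg_right ?_ (by linarith)
      exact mul_le_mul_of_nonneg_left (one_le_pow₀ (by norm_num)) (by linarith)
    have h5 : 4 * (t - 1) ≤ A * (t - 1) := mul_le_mul_of_nonneg_right hA4 (by linarith)
    rw [h2]
    linarith
  -- one range
  have range : ∀ (ρ D : ℕ) (κ : ℝ) (N : ℕ), ρ0 ≤ ρ → ρ ≤ D → D ≤ P → (∀ δ ∈ Δ, δ ≤ ρ ∨ D ≤ δ) →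
      f ρ ≤ Real.exp (-κ) → A * 256 ^ (N + 1) * (ρ / ρ0) ≤ κ →
      f D ≤ Real.exp (-(κ * (D / (256 * ρ)))) := by
    intro ρ D κ N hρρ hρD hDP hgap hfκ hκ
    refine range_lemma (d := (Δ.filter fun δ => δ ≤ ρ).sup id) hb hf0 hf hstep ?_ (by omega) hρD
      (by omega) ?_ hfκ (key ρ κ N hρρ hκ)
    · exact Finset.sup_le fun δ hδ => (Finset.mem_filter.1 hδ).2
    · intro x hx y hy
      have h1 := hΔ x hx y hy
      rcases hgap _ h1 with h2 | h2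
      · left
        have h3 : (x - y).natAbs ≤ (Δ.filter fun δ => δ ≤ ρ).sup id :=
          Finset.le_sup (f := id) (Finset.mem_filter.2 ⟨h1, h2⟩)
        rw [← Int.natCast_natAbs]
        exact_mod_cast h3
      · right
        rw [← Int.natCast_natAbs]
        exact_mod_cast h2
  have hκ0 : ∀ (ρ : ℕ) (κ : ℝ) (N : ℕ), A * 256 ^ (N + 1) * (ρ / ρ0) ≤ κ → 0 ≤ κ := by
    intro ρ κ N h
    refine le_trans ?_ h
    have : 0 ≤ A := by linarith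
    positivity
  induction N with
  | zero =>
    intro ρ κ h1 h2 h3 h4 h5
    have h6 : (Δ.filter fun δ => ρ < δ ∧ δ < P) = ∅ := Finset.card_eq_zero.1 (Nat.le_zero.1 h3)
    have h7 := range ρ P κ 0 h1 h2 le_rfl (by
      intro δ hδ
      by_contra hcon
      push Not at hcon
      have h8 : δ ∈ (Δ.filter fun δ => ρ < δ ∧ δ < P) := Finset.mem_filter.2 ⟨hδ, hcon⟩
      rw [h6] at h8
      simp at h8) h4 h5
    refine h7.trans (le_of_eq ?_)
    congr 2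
    rw [zero_add, pow_one]
    ring
  | succ N ih =>
    intro ρ κ h1 h2 h3 h4 h5
    by_cases hne : (Δ.filter fun δ => ρ < δ ∧ δ < P).Nonempty
    · obtain ⟨D, hD⟩ : ∃ D, D = (Δ.filter fun δ => ρ < δ ∧ δ < P).min' hne := ⟨_, rfl⟩
      have hDm : D ∈ (Δ.filter fun δ => ρ < δ ∧ δ < P) := by
        rw [hD]
        exact Finset.min'_mem _ hne
      obtain ⟨hDΔ, hρD, hDP⟩ := Finset.mem_filter.1 hDm
      have h6 := range ρ D κ (N + 1) h1 hρD.le hDP.le (by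
        intro δ hδ
        by_contra hcon
        push Not at hcon
        have h8 : δ ∈ (Δ.filter fun δ => ρ < δ ∧ δ < P) :=
          Finset.mem_filter.2 ⟨hδ, hcon.1, hcon.2.trans hDP⟩
        have h9 := Finset.min'_le _ δ h8
        rw [← hD] at h9
        omega) h4 h5
      have hcard : (Δ.filter fun δ => D < δ ∧ δ < P).card ≤ N := by
        have h7 : (Δ.filter fun δ => D < δ ∧ δ < P) ⊂ (Δ.filter fun δ => ρ < δ ∧ δ < P) := by
          rw [Finset.ssubset_iff_of_subset]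
          · exact ⟨D, hDm, by simp⟩
          · intro δ hδ
            obtain ⟨g1, g2, g3⟩ := Finset.mem_filter.1 hδ
            exact Finset.mem_filter.2 ⟨g1, hρD.trans g2, g3⟩
        have := Finset.card_lt_card h7
        omega
      have hρp : (0 : ℝ) < ρ := by
        have : 0 < ρ := by omega
        exact_mod_cast this
      have hDp : (0 : ℝ) < D := by
        have : 0 < D := by omega
        exact_mod_cast this
      have hρ0p : (0 : ℝ) < ρ0 := by linarith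
      have h8 : A * 256 ^ (N + 1) * (D / ρ0) ≤ κ * (D / (256 * ρ)) := by
        have h9 := mul_le_mul_of_nonneg_right h5 (by positivity : (0 : ℝ) ≤ D / (256 * ρ))
        refine le_trans (le_of_eq ?_) h9
        rw [pow_succ 256 (N + 1)]
        field_simp
      have h10 := ih D (κ * (D / (256 * ρ))) (by omega) hDP.le hcard h6 h8
      refine h10.trans (le_of_eq ?_)
      congr 2
      rw [pow_succ 256 (N + 1)]
      field_simp
    · rw [Finset.not_nonempty_iff_eq_empty] at hne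
      have hρp : (0 : ℝ) < ρ := by
        have : 0 < ρ := by omega
        exact_mod_cast this
      have h7 := range ρ P κ (N + 1) h1 h2 le_rfl (by
        intro δ hδ
        by_contra hcon
        push Not at hcon
        have h8 : δ ∈ (Δ.filter fun δ => ρ < δ ∧ δ < P) := Finset.mem_filter.2 ⟨hδ, hcon⟩
        rw [hne] at h8
        simp at h8) h4 h5
      refine h7.trans (Real.exp_le_exp.2 (neg_le_neg ?_))
      have hk := hκ0 ρ κ (N + 1) h5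
      rw [← mul_div_assoc, mul_comm (256 : ℝ) (ρ : ℝ)]
      refine div_le_div_of_nonneg_left (by positivity) (by positivity) ?_
      refine mul_le_mul_of_nonneg_left ?_ hρp.le
      exact le_self_pow₀ (by norm_num) (by omega)

/-- CHAIN. Induction on the number of distances `|x - y|` (`x, y ∈ S`) in `(ρ, P)`: `d` = largest distance `≤ ρ`, `D` = smallest distance `> ρ`, or `P` if this is smaller or there is none; `range_lemma` gives `f D ≤ exp(-κ')`,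
`κ' = κ D/(256 ρ)`; continue from `D`. At every moment `κ ≥ A ρ/ρ0` with `A = 2 log (64 * 10^11 b²) + 4 log ρ0 + 4`, and `A t ≥ A + 4 (t - 1) ≥ A + 4 log t`, so `hκ2` of `range_lemma` holds.
The number of steps is at most `q + 1`. -/
theorem chain_lemma {S : Finset ℤ} {b : ℝ} {R : ℕ} {f : ℕ → ℝ} (hb : 1 ≤ b) (hf0 : ∀ t, 0 ≤ f t) (hf : Antitone f)
    (hstep : StepProp S b R f) {ρ0 P q : ℕ} (hρ : 20 ≤ ρ0) (hρP : ρ0 ≤ P) (hPR : P ≤ R) (hq : S.card ^ 2 ≤ q) {κ : ℝ}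
    (hκ : f ρ0 ≤ Real.exp (-κ))
    (hκ2 : 256 ^ (q + 1) * (2 * Real.log (64 * 10 ^ 11 * b ^ 2) + 4 * Real.log ρ0 + 4) ≤ κ) :
    f P ≤ Real.exp (-(κ * P / (ρ0 * 256 ^ (q + 1)))) := by
  have hρ0 : (20 : ℝ) ≤ ρ0 := by exact_mod_cast hρ
  have hbb : 1 ≤ b ^ 2 := one_le_pow₀ hb
  have hlog1 : 0 ≤ Real.log (64 * 10 ^ 11 * b ^ 2) := Real.log_nonneg (by linarith)
  have hlog2 : 0 ≤ Real.log (ρ0 : ℝ) := Real.log_nonneg (by linarith)
  set Δ : Finset ℕ := (S ×ˢ S).image fun p => (p.1 - p.2).natAbs with hΔ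
  have hcard : (Δ.filter fun δ => ρ0 < δ ∧ δ < P).card ≤ q := by
    refine (Finset.card_filter_le _ _).trans ((Finset.card_image_le).trans ?_)
    rw [Finset.card_product, ← sq]
    exact hq
  have h1 := Q11_chain hb hf0 hf hstep hρ hPR (Δ := Δ) (by
    intro x hx y hy
    exact Finset.mem_image.2 ⟨(x, y), Finset.mem_product.2 ⟨hx, hy⟩, rfl⟩) rfl q ρ0 κ le_rfl hρP hcard
    hκ (by
      rw [div_self (by linarith), mul_one]
      refine le_trans (le_of_eq ?_) hκ2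
      ring)
  exact h1

end H24
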