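import Pool.Agent.Lib_MP_27c196_co.V.Q10
import Pool.Agent.Lib_MP_27c196_co.V.Q11
import Pool.Agent.Lib_MP_27c196_co.V.Q12

/-! H24 V, piece Q13a: choice of the bounded scale, the last step -/

set_option linter.unusedVariables false

noncomputable section

namespace H24

open Finset

variable {n : ℕ} {B : Finset (Fin 3 → ℕ)} {u : (Fin 3 → ℕ) → Fin 3 → ℝ} {δ C1 : ℝ}

/-- choice of the bounded scale: for all `A, Bq ≥ 0` there is `N` with `Bq * (A + log (160 * 64^N)) ≤ 2^((N - C)/2) - 1` (exponential against linear growth) -/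
theorem choose_N (A Bq : ℝ) (C : ℕ) : ∃ N : ℕ, C + 2 ≤ N ∧ ∀ T : ℕ, N ≤ T + C →
    Bq * (A + 4 * Real.log (160 * 64 ^ N)) ≤ (2 : ℝ) ^ (T / 2) - 1 := by
  have hl1 : 0 ≤ Real.log 160 := Real.log_nonneg (by norm_num)
  have hl2 : 0 ≤ Real.log 64 := Real.log_nonneg (by norm_num)
  set a : ℝ := |Bq| * (|A| + 4 * Real.log 160 + 4 * C * Real.log 64) + 1 with ha
  set b : ℝ := |Bq| * (16 * Real.log 64) with hb
  have ha0 : 0 ≤ a := by rw [ha]; positivity
  have hb0 : 0 ≤ b := by rw [hb]; positivity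
  set K : ℕ := ⌈a + b⌉₊ + 1 with hK
  have hK1 : (1 : ℝ) ≤ K := by rw [hK]; push_cast; linarith [Nat.cast_nonneg (α := ℝ) ⌈a + b⌉₊]
  have hKab : a + b ≤ K := by
    rw [hK]
    push_cast
    linarith [Nat.le_ceil (a + b)]
  refine ⟨C + 4 * K, by omega, fun T hT => ?_⟩
  have hlog : Real.log (160 * 64 ^ (C + 4 * K)) = Real.log 160 + ((C : ℝ) + 4 * K) * Real.log 64 := by
    rw [Real.log_mul (by norm_num) (by positivity), Real.log_pow]
    push_cast
    ring
  have h1 : Bq * (A + 4 * Real.log (160 * 64 ^ (C + 4 * K))) ≤ a - 1 + b * K := by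
    rw [hlog]
    have h2 : Bq * (A + 4 * (Real.log 160 + ((C : ℝ) + 4 * K) * Real.log 64)) ≤
        |Bq| * (|A| + 4 * (Real.log 160 + ((C : ℝ) + 4 * K) * Real.log 64)) := by
      refine (le_abs_self _).trans ?_
      rw [abs_mul]
      refine mul_le_mul_of_nonneg_left ?_ (abs_nonneg _)
      refine (abs_add_le _ _).trans ?_
      have h3 : 0 ≤ 4 * (Real.log 160 + ((C : ℝ) + 4 * K) * Real.log 64) := by positivity
      rw [abs_of_nonneg h3]
    refine h2.trans (le_of_eq ?_)
    rw [ha, hb]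
    ring
  have h4 : (2 : ℝ) ^ (2 * K) ≤ (2 : ℝ) ^ (T / 2) :=
    pow_le_pow_right₀ (by norm_num) (by omega)
  have h5 : (K : ℝ) ≤ (2 : ℝ) ^ K := by
    have : K < 2 ^ K := Nat.lt_two_pow_self
    exact_mod_cast this.le
  have h6 : (K : ℝ) * K ≤ (2 : ℝ) ^ (2 * K) := by
    rw [mul_comm 2 K, pow_mul, sq]
    exact mul_le_mul h5 h5 (by positivity) (by positivity)
  have h7 : a + b * K ≤ K * K := by
    have h8 : a * 1 ≤ a * K := mul_le_mul_of_nonneg_left hK1 ha0
    have h9 : (a + b) * K ≤ K * K := mul_le_mul_of_nonneg_right hKab (by positivity)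
    linarith
  linarith

/-- at the end: an index `a ≤ n + 2` with `Far n B P a` exists (at most `6 |B| (2P + 1)` are not), `6 δ ≤ M_a ≤ XF P` (`M_ge`, `M_le_XF`; `Far n B P a` implies `Far n B 0 a`) -/
theorem delta_le_XF (hd : RData n B u δ C1) {P : ℕ} (hP : 12 * (P + 1) * B.card ≤ n + 2) : 6 * δ ≤ XF n B u P := by
  classical
  set A1 := (range (n + 3)).filter (fun a => ¬ Far n B P a) with hA1
  have c1 : A1.card ≤ B.card * (3 * (2 * (2 * P + 1))) := by
    have hsub : A1 ⊆ B.biUnion (fun l => Finset.univ.biUnion (fun i : Fin 3 =>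
        (Finset.Icc (l i - P) (l i + P)) ∪
          (Finset.Icc (n + 2 - l i - P) (n + 2 - l i + P)))) := by
      intro a ha
      simp only [hA1, mem_filter, mem_range] at ha
      obtain ⟨ha1, ha2⟩ := ha
      unfold Far at ha2
      push Not at ha2
      obtain ⟨l, hl, i, hi⟩ := ha2
      simp only [mem_biUnion, mem_union, mem_Icc, mem_univ, true_and]
      refine ⟨l, hl, i, ?_⟩
      by_cases h : (P : ℤ) < |(a : ℤ) - l i|
      · right
        have h2 := hi h
        have h3 := abs_le.1 h2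
        omega
      · left
        push Not at h
        have h3 := abs_le.1 h
        omega
    refine le_trans (card_le_card hsub) ?_
    refine card_biUnion_le_card_mul _ _ _ (fun l _ => ?_)
    have h3 := card_biUnion_le_card_mul (Finset.univ : Finset (Fin 3)) (fun i : Fin 3 =>
        (Finset.Icc (l i - P) (l i + P)) ∪
          (Finset.Icc (n + 2 - l i - P) (n + 2 - l i + P))) (2 * (2 * P + 1))
        (fun i _ => by
          refine le_trans (card_union_le _ _) ?_
          rw [Nat.card_Icc, Nat.card_Icc]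
          omega)
    simpa using h3
  have c2 : A1.card < n + 3 := by
    have h1 : B.card * (3 * (2 * (2 * P + 1))) ≤ 12 * (P + 1) * B.card := by
      rw [mul_comm]
      exact Nat.mul_le_mul_right _ (by omega)
    omega
  obtain ⟨a, ha, haA⟩ : ∃ a ∈ range (n + 3), a ∉ A1 := by
    by_contra hcon
    push Not at hcon
    have h1 : range (n + 3) ⊆ A1 := fun a ha => hcon a ha
    have h2 := Finset.card_le_card h1
    rw [card_range] at h2
    omega
  have hF : Far n B P a := by
    by_contra hc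
    exact haA (by rw [hA1, mem_filter]; exact ⟨ha, hc⟩)
  rw [mem_range] at ha
  have hF0 : Far n B 0 a := by
    intro l hl i
    obtain ⟨h1, h2⟩ := hF l hl i
    have h3 : (0 : ℤ) ≤ P := Int.natCast_nonneg P
    push_cast
    exact ⟨lt_of_le_of_lt h3 h1, lt_of_le_of_lt h3 h2⟩
  exact (M_ge hd hF0 (by omega)).trans (M_le_XF (by omega) hF)

end H24
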