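import Pool.Agent.Lib_MP_27c196_co.V.Q10
import Pool.Agent.Lib_MP_27c196_co.V.Q11
import Pool.Agent.Lib_MP_27c196_co.V.Q12
import Pool.Agent.Lib_MP_27c196_co.V.Q13a

/-! H24 V, piece Q13: Theorem R with an exponential rate -/

set_option linter.unusedVariables false

noncomputable section

namespace H24

open Finset

variable {n : ℕ} {B : Finset (Fin 3 → ℕ)} {u : (Fin 3 → ℕ) → Fin 3 → ℝ} {δ C1 : ℝ}

private theorem Q13_card_pos (hd : RData n B u δ C1) : 1 ≤ B.card :=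
  Finset.card_pos.2 ⟨_, hd.corner 0⟩

private theorem Q13_C1_nonneg (hd : RData n B u δ C1) : 0 ≤ C1 := by
  refine le_trans (Finset.sum_nonneg fun i _ => Finset.sum_nonneg fun c hc => ?_) hd.sumsig
  rw [Finset.mem_filter] at hc
  exact hd.sig i c hc.1 hc.2.1 hc.2.2

private theorem Q13_SB_card (n : ℕ) (B : Finset (Fin 3 → ℕ)) : (SB n B).card ≤ 6 * B.card := by
  unfold SB
  refine le_trans Finset.card_biUnion_le ?_
  have h : ∀ l ∈ B, (Finset.univ.biUnion (fun i : Fin 3 =>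
      ({(l i : ℤ), (n : ℤ) + 2 - l i} : Finset ℤ))).card ≤ 6 := by
    intro l _
    refine le_trans Finset.card_biUnion_le ?_
    refine le_trans (Finset.sum_le_sum (fun i _ => Finset.card_le_two)) ?_
    simp
  refine le_trans (Finset.sum_le_sum h) ?_
  simp [mul_comm]

/-- the conclusion at the bounded scale, for an enlarged `B` -/
private theorem Q13_core (hd : RData n B u δ C1) (hn : 200000 ≤ n)
    (hη : ∀ i, ∀ c ∈ Lam (n + 1), c + s (i + 1) ∉ B → c + s (i + 2) ∉ B → sg u i c ≤ 1 / 20)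
    (hW : ∀ i, ∀ l ∈ Lam (n + 2), l ∉ B → l i = 0 → u l i ≤ 1 / 3)
    {Bm q ρ0 P : ℕ} (hB : B.card ≤ Bm) (hq : (6 * Bm) ^ 2 ≤ q) (hρ : 20 ≤ ρ0) (hρP : ρ0 ≤ P)
    (hP : 24000 * P * Bm ≤ n + 2) (hP2 : 12 * (P + 1) * Bm ≤ n + 2) {κ : ℝ} (hκ1 : 1 ≤ κ)
    (hκ : XF n B u ρ0 ≤ Real.exp (-κ))
    (hκ2 : 256 ^ (q + 1) * (2 * Real.log (64 * 10 ^ 11 * (Bm : ℝ) ^ 2) + 4 + 4 * Real.log ρ0) ≤ κ) :
    δ ≤ Real.exp (-((P : ℝ) / (ρ0 * 256 ^ (q + 1)))) := by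
  have hb1 : (1 : ℝ) ≤ B.card := by exact_mod_cast Q13_card_pos hd
  have hbm : (B.card : ℝ) ≤ Bm := by exact_mod_cast hB
  have hstep : StepProp (SB n B) (B.card : ℝ) P (XF n B u) := by
    intro d r hr hdr hrP hsep hX
    refine sharp_step hd hn hη hW hr hdr hsep ?_ hX
    refine le_trans ?_ hP
    exact Nat.mul_le_mul (Nat.mul_le_mul_left _ hrP) hB
  have hSB : (SB n B).card ^ 2 ≤ q := by
    refine le_trans (Nat.pow_le_pow_left ?_ 2) hq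
    exact (Q13_SB_card n B).trans (Nat.mul_le_mul_left _ hB)
  have hlog : Real.log (64 * 10 ^ 11 * (B.card : ℝ) ^ 2) ≤ Real.log (64 * 10 ^ 11 * (Bm : ℝ) ^ 2) := by
    apply Real.log_le_log (by positivity)
    gcongr
  have h1 := chain_lemma hb1 (fun t => XF_nonneg t) (fun a b hab => XF_anti hab) hstep hρ hρP le_rfl hSB
    hκ (by
      refine le_trans ?_ hκ2
      refine mul_le_mul_of_nonneg_left ?_ (by positivity)
      linarith)
  have h2 := delta_le_XF hd (P := P) (le_trans (Nat.mul_le_mul_left _ hB) hP2)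
  have hρ0 : (0 : ℝ) < ρ0 := by
    have : 0 < ρ0 := by omega
    exact_mod_cast this
  have h3 : (P : ℝ) / (ρ0 * 256 ^ (q + 1)) ≤ κ * P / (ρ0 * 256 ^ (q + 1)) := by
    apply div_le_div_of_nonneg_right _ (by positivity)
    exact le_mul_of_one_le_left (Nat.cast_nonneg _) hκ1
  have h4 : XF n B u P ≤ Real.exp (-((P : ℝ) / (ρ0 * 256 ^ (q + 1)))) :=
    h1.trans (Real.exp_le_exp.2 (neg_le_neg h3))
  have h5 := Real.exp_pos (-((P : ℝ) / (ρ0 * 256 ^ (q + 1))))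
  linarith

/-- THEOREM R, exponential version. `Bm = ⌈Z0 + 43 C1⌉`, `enlarge` gives `B'` with `|B'| ≤ Bm`; `q = (6 Bm)²`; `N` from `choose_N` (constants depending on `Bm, C1` only), `n` large: `iteration_EE` gives `T, j`, `XF (8 * 20 * 64^j) = S8 ≤ 2 EE ≤ exp(-(2^(T/2)))` (`S8_le_EE`,
`XF_eq_S8`), so with `ρ0 = 160 * 64^N`: `XF ρ0 ≤ exp(-κ)`, `κ = 2^(T/2) - 1` (`XF_anti`). `StepProp (SB n B') b R (XF n B' u)` with `b = |B'|` (as a real), `R = (n+2)/(24000 Bm)` (`sharp_step`). `chain_lemma` with `P = R` and `κ` as above gives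
`XF P ≤ exp(-(κ P/(ρ0 256^(q+1))))`, `κ ≥ 1`, `P ≥ (n+2)/(48000 Bm)`; `delta_le_XF`. (`choose_N` with `A = 2 log (64 * 10^11 Bm²) + 4` and `Bq = 256^(q+1)`; `2^(T/2) - 1 ≥ 1` may be arranged by the same inequality.) -/
theorem theoremR2 (C1 : ℝ) (Z0 : ℕ) : ∃ c : ℝ, 0 < c ∧ ∃ n0 : ℕ, ∀ n ≥ n0, ∀ (B : Finset (Fin 3 → ℕ))
    (u : (Fin 3 → ℕ) → Fin 3 → ℝ) (δ : ℝ), RData n B u δ C1 → B.card ≤ Z0 →
    δ ≤ Real.exp (-(c * (n + 2))) := by
  set Bm : ℕ := ⌈(Z0 : ℝ) + 43 * C1⌉₊ + 1 with hBm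
  set q : ℕ := (6 * Bm) ^ 2 with hq
  set C : ℕ := ⌈2 + 4 * (6 * (Bm : ℝ)) ^ 2 + 8 * C1 * (4 * 10 ^ 8 * (60000 * (Bm : ℝ)) ^ 3)⌉₊ with hC
  have hBm1 : (1 : ℝ) ≤ Bm := by
    rw [hBm]
    push_cast
    linarith [Nat.cast_nonneg (α := ℝ) ⌈(Z0 : ℝ) + 43 * C1⌉₊]
  have hBmN : 1 ≤ Bm := by exact_mod_cast hBm1
  set A : ℝ := 2 * Real.log (64 * 10 ^ 11 * (Bm : ℝ) ^ 2) + 4 with hA
  have hA4 : 4 ≤ A := by
    have h1 : (1 : ℝ) ≤ 64 * 10 ^ 11 * (Bm : ℝ) ^ 2 := by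
      have h2 : (1 : ℝ) ≤ (Bm : ℝ) ^ 2 := one_le_pow₀ hBm1
      linarith
    have := Real.log_nonneg h1
    rw [hA]
    linarith
  obtain ⟨N, hN1, hN2⟩ := choose_N A (256 ^ (q + 1)) C
  set ρ0 : ℕ := 160 * 64 ^ N with hρ0
  have hρ20 : 20 ≤ ρ0 := by
    have : 1 ≤ 64 ^ N := Nat.one_le_pow _ _ (by norm_num)
    omega
  have hρpos : (0 : ℝ) < ρ0 := by
    have : 0 < ρ0 := by omega
    exact_mod_cast this
  obtain ⟨c1, hc1⟩ : ∃ c : ℕ, c = ⌈20000000 * C1⌉₊ := ⟨_, rfl⟩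
  obtain ⟨c2, hc2⟩ : ∃ c : ℕ, c = 24000000000 * Bm * (20 * 64 ^ N) := ⟨_, rfl⟩
  obtain ⟨c3, hc3⟩ : ∃ c : ℕ, c = 24000 * Bm * (ρ0 + 1) := ⟨_, rfl⟩
  obtain ⟨c4, hc4⟩ : ∃ c : ℕ, c = 48000 * Bm := ⟨_, rfl⟩
  refine ⟨1 / (48000 * Bm * (ρ0 * 256 ^ (q + 1))), by positivity, 200000 + c1 + c2 + c3 + c4,
    fun n hn B u δ hd hB => ?_⟩
  have hn0 : 200000 ≤ n := by
    refine le_trans ?_ hn
    rw [add_assoc, add_assoc, add_assoc]
    exact Nat.le_add_right _ _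
  have hn1 : c1 ≤ n := by
    refine le_trans ?_ hn
    rw [add_right_comm 200000 c1 c2, add_right_comm (200000 + c2) c1 c3,
      add_right_comm (200000 + c2 + c3) c1 c4]
    exact Nat.le_add_left _ _
  have hn2 : c2 ≤ n := by
    refine le_trans ?_ hn
    rw [add_right_comm (200000 + c1) c2 c3, add_right_comm (200000 + c1 + c3) c2 c4]
    exact Nat.le_add_left _ _
  have hn3 : c3 ≤ n := by
    refine le_trans ?_ hn
    rw [add_right_comm (200000 + c1 + c2) c3 c4]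
    exact Nat.le_add_left _ _
  have hn4 : c4 ≤ n := by
    refine le_trans ?_ hn
    exact Nat.le_add_left _ _
  clear hn
  have hC1 := Q13_C1_nonneg hd
  obtain ⟨B', hBB, hd', hcard, hη, hW⟩ := enlarge hd hC1
  have hcard' : (B'.card : ℝ) ≤ Bm := by
    have h1 := Nat.le_ceil ((Z0 : ℝ) + 43 * C1)
    have h2 : (B.card : ℝ) ≤ Z0 := by exact_mod_cast hB
    rw [hBm]
    push_cast
    linarith
  have hcardN : B'.card ≤ Bm := by exact_mod_cast hcard'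
  have hn200 : 200000 ≤ n := hn0
  have hC20 : 20000000 * C1 ≤ n := by
    refine le_trans (Nat.le_ceil _) ?_
    rw [← hc1]
    exact_mod_cast hn1
  have hN' : 24000000000 * B'.card * (20 * 64 ^ N) ≤ n := by
    have h1 : 24000000000 * B'.card * (20 * 64 ^ N) ≤ 24000000000 * Bm * (20 * 64 ^ N) :=
      Nat.mul_le_mul_right _ (Nat.mul_le_mul_left _ hcardN)
    rw [← hc2] at h1
    exact h1.trans hn2
  have h1 : (6 * (B'.card : ℝ)) ^ 2 ≤ (6 * (Bm : ℝ)) ^ 2 := by gcongr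
  have h2 : (60000 * (B'.card : ℝ)) ^ 3 ≤ (60000 * (Bm : ℝ)) ^ 3 := by gcongr
  have h3 : 8 * C1 * (4 * 10 ^ 8 * (60000 * (B'.card : ℝ)) ^ 3) ≤
      8 * C1 * (4 * 10 ^ 8 * (60000 * (Bm : ℝ)) ^ 3) := by gcongr
  have h5 := Nat.le_ceil (2 + 4 * (6 * (Bm : ℝ)) ^ 2 + 8 * C1 * (4 * 10 ^ 8 * (60000 * (Bm : ℝ)) ^ 3))
  rw [← hC] at h5
  have hNC : ((C + 2 : ℕ) : ℝ) ≤ N := by exact_mod_cast hN1
  push_cast at hNC
  obtain ⟨T, j, hjN, hT, hEE⟩ := iteration_EE hd' (le_trans (by norm_num) hn0) hC1 hC20 hη hW N hN' (by linarith)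
  have hTC : N ≤ T + C := by
    have h4 : (N : ℝ) ≤ T + C := by linarith
    exact_mod_cast h4
  have hκ := hN2 T hTC
  -- the energy at the bounded scale
  have hj : 20 ≤ 20 * 64 ^ j := by
    have : 1 ≤ 64 ^ j := Nat.one_le_pow _ _ (by norm_num)
    omega
  have hX : XF n B' u ρ0 ≤ Real.exp (-((2 : ℝ) ^ (T / 2) - 1)) := by
    have h6 : 8 * (20 * 64 ^ j) ≤ ρ0 := by
      have : 64 ^ j ≤ 64 ^ N := Nat.pow_le_pow_right (by norm_num) hjN.le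
      omega
    refine (XF_anti h6).trans ?_
    rw [XF_eq_S8]
    refine (S8_le_EE hd' hj).trans (hEE.trans (Real.exp_le_exp.2 ?_))
    linarith
  have hρcast : ((ρ0 : ℕ) : ℝ) = 160 * 64 ^ N := by
    rw [hρ0]; push_cast; ring
  have hlogρ : 0 ≤ Real.log (ρ0 : ℝ) := by
    apply Real.log_nonneg
    have : 1 ≤ ρ0 := by omega
    exact_mod_cast this
  have h256 : (1 : ℝ) ≤ 256 ^ (q + 1) := one_le_pow₀ (by norm_num)
  rw [← hρcast] at hκ
  have hκ1 : 1 ≤ (2 : ℝ) ^ (T / 2) - 1 := by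
    refine le_trans ?_ hκ
    have h6 : 1 ≤ A + 4 * Real.log (ρ0 : ℝ) := by linarith
    calc (1 : ℝ) = 1 * 1 := by ring
      _ ≤ 256 ^ (q + 1) * (A + 4 * Real.log (ρ0 : ℝ)) := by
        apply mul_le_mul h256 h6 (by norm_num) (by positivity)
  -- the range
  set P : ℕ := (n + 2) / (24000 * Bm) with hP
  have hPle : 24000 * Bm * P ≤ n + 2 := by
    rw [hP]; exact Nat.mul_div_le _ _
  have hPlt : n + 2 < 24000 * Bm * (P + 1) := by
    rw [hP]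
    exact Nat.lt_mul_div_succ _ (by omega)
  have hρP : ρ0 ≤ P := by
    by_contra hcon
    push Not at hcon
    have h6 : 24000 * Bm * (P + 1) ≤ 24000 * Bm * (ρ0 + 1) := Nat.mul_le_mul_left _ (by omega)
    rw [← hc3] at h6
    omega
  have hPa : 24000 * P * Bm ≤ n + 2 := by
    refine le_trans (le_of_eq ?_) hPle
    ring
  have hPb : 12 * (P + 1) * Bm ≤ n + 2 := by
    have h6 : 12 * (P + 1) * Bm = 12 * (Bm * P) + 12 * Bm := by ring
    have h7 : 24000 * Bm * P = 24000 * (Bm * P) := by ring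
    rw [h7] at hPle
    rw [h6]
    omega
  have hfin := Q13_core hd' hn200 hη hW hcardN (le_of_eq hq.symm) hρ20 hρP hPa hPb hκ1 hX (by
    refine le_trans (le_of_eq ?_) hκ
    rw [hA])
  refine hfin.trans (Real.exp_le_exp.2 (neg_le_neg ?_))
  have hPR : ((n : ℝ) + 2) ≤ 48000 * Bm * P := by
    have h6 : n + 2 ≤ 48000 * Bm * P := by
      have h7 : 24000 * Bm * (P + 1) = 24000 * (Bm * P) + 24000 * Bm := by ring
      have h8 : 48000 * Bm * P = 48000 * (Bm * P) := by ring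
      have h9 : 24000 * Bm * P = 24000 * (Bm * P) := by ring
      rw [h7] at hPlt
      rw [h8]
      omega
    exact_mod_cast h6
  have hBmp : (0 : ℝ) < 48000 * Bm := by linarith
  have hDp : (0 : ℝ) < ρ0 * 256 ^ (q + 1) := by positivity
  rw [one_div, inv_mul_le_iff₀ (by positivity)]
  calc (n : ℝ) + 2 ≤ 48000 * Bm * P := hPR
    _ = 48000 * Bm * (ρ0 * 256 ^ (q + 1)) * (P / (ρ0 * 256 ^ (q + 1))) := by
      field_simp

end H24
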