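import Pool.Agent.Lib_MP_27c196_co.R.P5

/-! H24 V (version with sharp cutoffs), piece Q5: the sharp weight -/

set_option linter.unusedVariables false

noncomputable section

namespace H24.Sh

open Finset H24

open Classical in
/-- the sharp weight -/
def wt (r : ℕ) (B : Finset (Fin 3 → ℕ)) (x : Fin 3 → ℕ) : ℝ := if Act r B x then 1 else 0

/-- the collar of the sharp weight -/
def Collar (r : ℕ) (B : Finset (Fin 3 → ℕ)) (l : Fin 3 → ℕ) : Prop :=
  ∃ x, Near 2 l x ∧ x 0 + x 1 + x 2 ≤ l 0 + l 1 + l 2 ∧ l 0 + l 1 + l 2 ≤ x 0 + x 1 + x 2 + 2 ∧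
    wt r B x ≠ wt r B l

open Classical in
/-- sum over the collar of `sqrt q(u)` -/
def Fc (n r : ℕ) (B : Finset (Fin 3 → ℕ)) (u : (Fin 3 → ℕ) → Fin 3 → ℝ) : ℝ :=
  (1 / ((1 : ℕ) : ℝ)) * ∑ l ∈ (Lam (n + 2)).filter (fun l => Collar r B l), √(q (u l))

variable {n r : ℕ} {B : Finset (Fin 3 → ℕ)}

theorem wt_nonneg (r : ℕ) (B : Finset (Fin 3 → ℕ)) (x : Fin 3 → ℕ) : 0 ≤ wt r B x := by
  unfold wt; split_ifs <;> norm_num

theorem wt_le_one (r : ℕ) (B : Finset (Fin 3 → ℕ)) (x : Fin 3 → ℕ) : wt r B x ≤ 1 := by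
  unfold wt; split_ifs <;> norm_num

theorem wt_lip (hr : 0 < r) {d : ℕ} {x y : Fin 3 → ℕ} (h : Near d x y) :
    |wt r B x - wt r B y| ≤ d / ((1 : ℕ) : ℝ) := by
  rcases Nat.eq_zero_or_pos d with rfl | hd
  · have hxy : x = y := by
      funext i
      have := h i
      rw [abs_le] at this
      push_cast at this
      omega
    rw [hxy]
    simp
  · have h1 := wt_nonneg r B x
    have h2 := wt_le_one r B x
    have h3 := wt_nonneg r B y
    have h4 := wt_le_one r B y
    have h5 : (1 : ℝ) ≤ d := by exact_mod_cast hd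
    have h6 : (d : ℝ) / ((1 : ℕ) : ℝ) = d := by simp
    rw [h6, abs_le]
    constructor <;> linarith

theorem act_of_wt_pos (hB : B.Nonempty) (hr : 0 < r) {x : Fin 3 → ℕ} (h : 0 < wt r B x) : Act r B x := by
  unfold wt at h
  by_contra hc
  rw [if_neg hc] at h
  exact lt_irrefl _ h

theorem wt_one_of_act (hB : B.Nonempty) (hr : 0 < r) {x : Fin 3 → ℕ} (h : Act r B x) : wt r B x = 1 := by
  unfold wt
  rw [if_pos h]

theorem wt_zero_of_not {x : Fin 3 → ℕ} (h : ¬ Act r B x) : wt r B x = 0 := by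
  unfold wt
  rw [if_neg h]

/-- the weight vanishes near `B` -/
theorem wt_zero_near {z x : Fin 3 → ℕ} (hz : z ∈ B) (hr : 0 < r) (h : Near r z x) : wt r B x = 0 := by
  apply wt_zero_of_not
  intro hA
  obtain ⟨i, j, -, hi, -⟩ := hA z hz
  have := h i
  rw [abs_sub_comm] at this
  omega

/-- a collar label is in the set `Act (r-2)`, in particular not in `B` -/
theorem act_of_collar (hB : B.Nonempty) (hr : 20 ≤ r) {l : Fin 3 → ℕ} (h : Collar r B l) :
    Act (r - 2) B l := by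
  obtain ⟨x, hx, h1, h2, h3⟩ := h
  by_cases hl : Act r B l
  · exact act_mono (by omega) hl
  · have hAx : Act r B x := by
      by_contra hc
      apply h3
      rw [wt_zero_of_not hl, wt_zero_of_not hc]
    have hAx' : Act ((r - 2) + 2) B x := by
      have e : r - 2 + 2 = r := by omega
      rw [e]; exact hAx
    apply act_near hAx'
    intro i
    rw [abs_sub_comm]
    exact hx i

/-- if no two of the three numbers exceed `c` then two of them are at most `c` -/
private lemma Q5_two {a : Fin 3 → ℤ} {c : ℤ} (h : ∀ i j : Fin 3, i ≠ j → c < a i → a j ≤ c) :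
    ∃ i j : Fin 3, i ≠ j ∧ a i ≤ c ∧ a j ≤ c := by
  by_cases h0 : c < a 0
  · exact ⟨1, 2, by decide, h 0 1 (by decide) h0, h 0 2 (by decide) h0⟩
  · by_cases h1 : c < a 1
    · exact ⟨0, 2, by decide, not_lt.1 h0, h 1 2 (by decide) h1⟩
    · exact ⟨0, 1, by decide, not_lt.1 h0, not_lt.1 h1⟩

/-- if the sums agree and two of the three differences are at most `c` in absolute value then the third is at most `2 c` -/
private lemma Q5_third {x z : Fin 3 → ℕ} {c : ℤ} (h1 : x 0 + x 1 + x 2 = z 0 + z 1 + z 2)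
    {i j : Fin 3} (hij : i ≠ j) (hc : 0 ≤ c)
    (hi : |(x i : ℤ) - z i| ≤ c) (hj : |(x j : ℤ) - z j| ≤ c) (t : Fin 3) :
    |(x t : ℤ) - z t| ≤ 2 * c := by
  rw [abs_le] at hi hj ⊢
  fin_cases i <;> fin_cases j <;> fin_cases t <;> simp at hij hi hj ⊢ <;> omega

/-- if `x` is not in `Act c`, some `z ∈ B` has two differences at most `c` -/
private lemma Q5_notAct {c : ℕ} {x : Fin 3 → ℕ} (h : ¬ Act c B x) :
    ∃ z ∈ B, ∃ i j : Fin 3, i ≠ j ∧ |(x i : ℤ) - z i| ≤ c ∧ |(x j : ℤ) - z j| ≤ c := by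
  unfold Act at h
  simp only [not_forall] at h
  obtain ⟨z, hz, h⟩ := h
  refine ⟨z, hz, Q5_two (a := fun i => |(x i : ℤ) - z i|) ?_⟩
  intro i j hij hi
  by_contra hj
  exact h ⟨i, j, hij, hi, not_le.1 hj⟩

/-- for a collar label there is `z ∈ B` such that two of the `|l_i - z_i|` are `> r - 2`, two of them are `≤ r + 2`, and all are `≤ 2r + 6` -/
theorem collar_spec (hB : B.Nonempty) (hBs : B ⊆ Lam (n + 2)) (hr : 20 ≤ r) {l : Fin 3 → ℕ}
    (hl : l ∈ Lam (n + 2)) (h : Collar r B l) :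
    ∃ z ∈ B, (∃ i j, i ≠ j ∧ (r : ℤ) - 2 < |(l i : ℤ) - z i| ∧ (r : ℤ) - 2 < |(l j : ℤ) - z j|) ∧
      (∃ i j, i ≠ j ∧ |(l i : ℤ) - z i| ≤ r + 2 ∧ |(l j : ℤ) - z j| ≤ r + 2) ∧
      ∀ i, |(l i : ℤ) - z i| ≤ 2 * r + 6 := by
  obtain ⟨x, hnear, hs1, hs2, hne⟩ := h
  have hls := mem_Lam.1 hl
  have hdist : ∀ i (z : Fin 3 → ℕ), |(l i : ℤ) - z i| ≤ |(x i : ℤ) - z i| + 2 ∧
      |(x i : ℤ) - z i| ≤ |(l i : ℤ) - z i| + 2 := by
    intro i z
    have h1 := hnear i
    have h2 := abs_sub_le (l i : ℤ) (x i) (z i)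
    have h3 := abs_sub_le (x i : ℤ) (l i) (z i)
    rw [abs_sub_comm (x i : ℤ) (l i)] at h3
    push_cast at h1
    constructor <;> omega
  by_cases hAl : Act r B l
  · have hAx : ¬ Act r B x := by
      intro hc
      apply hne
      rw [wt_one_of_act hB (by omega) hAl, wt_one_of_act hB (by omega) hc]
    obtain ⟨z, hz, a, b, hab, ha, hb⟩ := Q5_notAct hAx
    have hzs := mem_Lam.1 (hBs hz)
    have ha' := (hdist a z).1
    have hb' := (hdist b z).1
    refine ⟨z, hz, ?_, ⟨a, b, hab, by omega, by omega⟩, ?_⟩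
    · obtain ⟨i, j, hij, hi, hj⟩ := hAl z hz
      exact ⟨i, j, hij, by omega, by omega⟩
    · intro i
      have h3 := Q5_third (x := l) (z := z) (c := r + 2) (by omega) hab (by omega)
        (by omega) (by omega) i
      omega
  · have hAx : Act r B x := by
      by_contra hc
      apply hne
      rw [wt_zero_of_not hAl, wt_zero_of_not hc]
    obtain ⟨z, hz, a, b, hab, ha, hb⟩ := Q5_notAct hAl
    have hzs := mem_Lam.1 (hBs hz)
    refine ⟨z, hz, ?_, ⟨a, b, hab, by omega, by omega⟩, ?_⟩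
    · obtain ⟨i, j, hij, hi, hj⟩ := hAx z hz
      have h4 := (hdist i z).2
      have h5 := (hdist j z).2
      exact ⟨i, j, hij, by omega, by omega⟩
    · intro i
      have h3 := Q5_third (x := l) (z := z) (c := r) (by omega) hab (by omega)
        (by omega) (by omega) i
      omega

end H24.Sh
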