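import Pool.Agent.Lib_MP_27c196_co.R.P9
import Pool.Agent.Lib_MP_27c196_co.V.Q5

/-! H24 V, piece Q9b: the collar of the sharp weight has at most `150 r |B|` labels -/

set_option linter.unusedVariables false

noncomputable section

namespace H24

open Finset

variable {n r : ℕ} {B : Finset (Fin 3 → ℕ)} {u : (Fin 3 → ℕ) → Fin 3 → ℝ} {δ C1 : ℝ}

/-- a label is determined by two coordinates -/
private theorem Q9b_ext {k : ℕ} {l l' : Fin 3 → ℕ} (hl : l ∈ Lam k) (hl' : l' ∈ Lam k) {i j : Fin 3}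
    (hij : i ≠ j) (hi : l i = l' i) (hj : l j = l' j) : l = l' := by
  rw [mem_Lam] at hl hl'
  funext t
  fin_cases i <;> fin_cases j <;> simp at hij hi hj ⊢ <;> fin_cases t <;> simp <;> omega

/-- two pairs of indices of `Fin 3` meet -/
private theorem Q9b_pair {P Q : Fin 3 → Prop} (h1 : ∃ i j, i ≠ j ∧ P i ∧ P j)
    (h2 : ∃ i j, i ≠ j ∧ Q i ∧ Q j) : ∃ i, P i ∧ Q i := by
  obtain ⟨i, j, hij, hi, hj⟩ := h1
  obtain ⟨i', j', hij', hi', hj'⟩ := h2
  by_cases e1 : i = i'
  · subst e1; exact ⟨i, hi, hi'⟩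
  by_cases e2 : i = j'
  · subst e2; exact ⟨i, hi, hj'⟩
  by_cases e3 : j = i'
  · subst e3; exact ⟨j, hj, hi'⟩
  by_cases e4 : j = j'
  · subst e4; exact ⟨j, hj, hj'⟩
  exfalso
  omega

open Classical in
/-- by `Sh.collar_spec` there are `z ∈ B` and an index `i` with `r - 2 < |l_i - z_i| ≤ r + 2` and `|l_(i+1) - z_(i+1)| ≤ 2r + 6`; `l` is determined by
`(z, i, l_i, l_(i+1))`: at most `|B| * 3 * 8 * (4r + 13) ≤ 150 r |B|` labels. -/
theorem collar_card_Q9b (hd : RData n B u δ C1) (hr : 20 ≤ r) :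
    ((Lam (n + 2)).filter (fun l => Sh.Collar r B l)).card ≤ 150 * r * B.card := by
  have hB : B.Nonempty := ⟨_, hd.corner 0⟩
  set P : Finset ((Fin 3 → ℕ) × Fin 3) := B ×ˢ (univ : Finset (Fin 3)) with hP
  set O : Finset ℤ := (Finset.Icc (-((r : ℤ) + 2)) (-((r : ℤ) - 1))) ∪
    (Finset.Icc ((r : ℤ) - 1) ((r : ℤ) + 2)) with hO
  set W : Finset ℤ := Finset.Icc (-(2 * (r : ℤ) + 6)) (2 * (r : ℤ) + 6) with hW
  set T : ((Fin 3 → ℕ) × Fin 3) → Finset (Fin 3 → ℕ) := fun p =>
    (Lam (n + 2)).filter (fun l => ((l p.2 : ℤ) - p.1 p.2) ∈ O ∧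
      ((l (p.2 + 1) : ℤ) - p.1 (p.2 + 1)) ∈ W) with hT
  have hOc : O.card ≤ 8 := by
    rw [hO]
    refine le_trans (card_union_le _ _) ?_
    rw [Int.card_Icc, Int.card_Icc]
    omega
  have hWc : W.card ≤ 4 * r + 13 := by
    rw [hW, Int.card_Icc]
    omega
  have h1 : (Lam (n + 2)).filter (fun l => Sh.Collar r B l) ⊆ P.biUnion T := by
    intro l hl
    rw [mem_filter] at hl
    obtain ⟨z, hz, hbig, hsmall, hall⟩ := Sh.collar_spec hB hd.sub hr hl.1 hl.2
    obtain ⟨i, hi1, hi2⟩ := Q9b_pair (P := fun i => (r : ℤ) - 2 < |(l i : ℤ) - z i|)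
      (Q := fun i => |(l i : ℤ) - z i| ≤ r + 2) hbig hsmall
    rw [mem_biUnion]
    refine ⟨(z, i), ?_, ?_⟩
    · rw [hP, mem_product]
      exact ⟨hz, mem_univ _⟩
    · simp only [hT, mem_filter]
      refine ⟨hl.1, ?_, ?_⟩
      · rw [hO, mem_union, mem_Icc, mem_Icc]
        rcases abs_cases ((l i : ℤ) - z i) with ⟨a1, a2⟩ | ⟨a1, a2⟩
        · right
          rw [a1] at hi1 hi2
          constructor <;> linarith
        · left
          rw [a1] at hi1 hi2
          constructor <;> linarith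
      · rw [hW, mem_Icc]
        exact abs_le.1 (hall (i + 1))
  have h2 : ∀ p ∈ P, (T p).card ≤ 8 * (4 * r + 13) := by
    intro p hp
    have h3 : (T p).card ≤ (O ×ˢ W).card := by
      refine Finset.card_le_card_of_injOn
        (fun l => ((l p.2 : ℤ) - p.1 p.2, (l (p.2 + 1) : ℤ) - p.1 (p.2 + 1))) ?_ ?_
      · intro l hl
        have hl2 := (mem_filter.1 (mem_coe.1 hl)).2
        exact mem_coe.2 (mem_product.2 hl2)
      · intro l hl l' hl' he
        have hm := (mem_filter.1 (mem_coe.1 hl)).1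
        have hm' := (mem_filter.1 (mem_coe.1 hl')).1
        simp only [Prod.mk.injEq] at he
        have e1 : l p.2 = l' p.2 := by
          have := he.1
          omega
        have e2 : l (p.2 + 1) = l' (p.2 + 1) := by
          have := he.2
          omega
        have hne : p.2 ≠ p.2 + 1 := by
          generalize p.2 = i
          fin_cases i <;> decide
        exact Q9b_ext hm hm' hne e1 e2
    refine le_trans h3 ?_
    rw [card_product]
    exact Nat.mul_le_mul hOc hWc
  refine le_trans (card_le_card h1) ?_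
  refine le_trans (card_biUnion_le_card_mul P T _ h2) ?_
  have h4 : P.card = B.card * 3 := by
    rw [hP, card_product]
    congr 1
  rw [h4]
  have h5 : 3 * (8 * (4 * r + 13)) ≤ 150 * r := by omega
  calc B.card * 3 * (8 * (4 * r + 13)) = B.card * (3 * (8 * (4 * r + 13))) := by ring
    _ ≤ B.card * (150 * r) := Nat.mul_le_mul_left _ h5
    _ = 150 * r * B.card := by ring

end H24
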