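import Pool.Agent.Lib_MP_27c196_co.R.P9
import Pool.Agent.Lib_MP_27c196_co.V.Q5
import Pool.Agent.Lib_MP_27c196_co.V.Q9b

/-! H24 V, piece Q9: far sums, collar of the sharp weight -/

set_option linter.unusedVariables false

noncomputable section

namespace H24

open Finset

variable {n r : ℕ} {B : Finset (Fin 3 → ℕ)} {u : (Fin 3 → ℕ) → Fin 3 → ℝ} {δ C1 : ℝ}

open Classical in
/-- sum of `M_a` over the indices `a` at distance more than `t` from `SB n B` -/
def XF (n : ℕ) (B : Finset (Fin 3 → ℕ)) (u : (Fin 3 → ℕ) → Fin 3 → ℝ) (t : ℕ) : ℝ :=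
  ∑ a ∈ (range (n + 3)).filter (fun a => Far n B t a), M n u a

private theorem Q9_far_mono {t t' : ℕ} (h : t' ≤ t) {a : ℕ} (hf : Far n B t a) : Far n B t' a := by
  intro l hl i
  have h1 := hf l hl i
  constructor
  · have := h1.1; omega
  · have := h1.2; omega

private theorem Q9_mem_SB {z : Fin 3 → ℕ} (hz : z ∈ B) (i : Fin 3) :
    (z i : ℤ) ∈ SB n B ∧ (n : ℤ) + 2 - z i ∈ SB n B := by
  constructor
  · rw [SB, mem_biUnion]
    exact ⟨z, hz, by rw [mem_biUnion]; exact ⟨i, mem_univ _, by simp⟩⟩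
  · rw [SB, mem_biUnion]
    exact ⟨z, hz, by rw [mem_biUnion]; exact ⟨i, mem_univ _, by simp⟩⟩

private theorem Q9_le {k : ℕ} {l : Fin 3 → ℕ} (hl : l ∈ Lam k) (i : Fin 3) : l i ≤ k := by
  rw [mem_Lam] at hl
  fin_cases i <;> simp <;> omega

theorem XF_nonneg (t : ℕ) : 0 ≤ XF n B u t := by
  unfold XF
  exact Finset.sum_nonneg fun a _ => M_nonneg n u a

theorem XF_anti {t t' : ℕ} (h : t ≤ t') : XF n B u t' ≤ XF n B u t := by
  classical
  unfold XF
  refine Finset.sum_le_sum_of_subset_of_nonneg ?_ (fun a _ _ => M_nonneg n u a)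
  intro a ha
  simp only [mem_filter, mem_range] at ha ⊢
  exact ⟨ha.1, Q9_far_mono h ha.2⟩

theorem M_le_XF {t a : ℕ} (ha : a ≤ n + 2) (h : Far n B t a) : M n u a ≤ XF n B u t := by
  classical
  unfold XF
  refine Finset.single_le_sum (f := fun a => M n u a) (fun b _ => M_nonneg n u b) ?_
  simp only [mem_filter, mem_range]
  exact ⟨by omega, h⟩

/-- `XF (8r) = S8 r` -/
theorem XF_eq_S8 (r : ℕ) : XF n B u (8 * r) = S8 n B u r := by
  unfold XF S8
  rfl

private theorem Q9_arith {r d : ℕ} (hdr : d + 2 ≤ r) {x z y : ℤ} (h1 : (r : ℤ) - 2 < |x - z|)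
    (h2 : |x - z| ≤ 2 * r + 6) (hs : |z - y| ≤ d ∨ 4 * (r : ℤ) + 20 ≤ |z - y|) :
    ((r - 2 - d : ℕ) : ℤ) < |x - y| := by
  have e : ((r - 2 - d : ℕ) : ℤ) = (r : ℤ) - 2 - d := by omega
  rw [e]
  rcases abs_cases (x - z) with ⟨a1, a2⟩ | ⟨a1, a2⟩ <;>
  rcases abs_cases (z - y) with ⟨b1, b2⟩ | ⟨b1, b2⟩ <;>
  rcases abs_cases (x - y) with ⟨c1, c2⟩ | ⟨c1, c2⟩ <;>
  rw [a1] at h1 h2 <;> rw [b1] at hs <;> rw [c1] <;> rcases hs with hs | hs <;> omega

private theorem Q9_far_aux {r d : ℕ} (hdr : d + 2 ≤ r)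
    (hsep : ∀ x ∈ SB n B, ∀ y ∈ SB n B, |x - y| ≤ d ∨ 4 * (r : ℤ) + 20 ≤ |x - y|)
    {z : Fin 3 → ℕ} (hz : z ∈ B) {i : Fin 3} {a : ℕ} (h1 : (r : ℤ) - 2 < |(a : ℤ) - z i|)
    (h2 : |(a : ℤ) - z i| ≤ 2 * r + 6) : Far n B (r - 2 - d) a := by
  intro l hl k
  constructor
  · exact Q9_arith hdr h1 h2 (hsep _ (Q9_mem_SB hz i).1 _ (Q9_mem_SB hl k).1)
  · exact Q9_arith hdr h1 h2 (hsep _ (Q9_mem_SB hz i).1 _ (Q9_mem_SB hl k).2)

/-- `z` and the two indices `i ≠ j` with `|l_i - z_i| > r - 2` of `Sh.collar_spec`; for `y ∈ SB`: if `|y - z_i| ≤ d` then `|l_i - y| > r - 2 - d`; if `|y - z_i| ≥ 4r + 20` then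
`|l_i - y| ≥ 4r + 20 - (2r + 6)`. (`z_i` and `n + 2 - z_i` are in `SB n B`; `Far n B t a` says that `a` is farther than `t` from all the elements of `SB n B`.) -/
theorem collar_far (hd : RData n B u δ C1) (hr : 20 ≤ r) {d : ℕ} (hdr : d + 2 ≤ r)
    (hsep : ∀ x ∈ SB n B, ∀ y ∈ SB n B, |x - y| ≤ d ∨ 4 * (r : ℤ) + 20 ≤ |x - y|) {l : Fin 3 → ℕ}
    (hl : l ∈ Lam (n + 2)) (h : Sh.Collar r B l) :
    ∃ i j, i ≠ j ∧ Far n B (r - 2 - d) (l i) ∧ Far n B (r - 2 - d) (l j) := by
  obtain ⟨z, hz, ⟨i, j, hij, hi, hj⟩, -, hall⟩ :=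
    Sh.collar_spec (⟨_, hd.corner 0⟩ : B.Nonempty) hd.sub hr hl h
  exact ⟨i, j, hij, Q9_far_aux hdr hsep hz hi (hall i), Q9_far_aux hdr hsep hz hj (hall j)⟩

open Classical in
/-- by `Sh.collar_spec` there are `z ∈ B` and an index `i` with `r - 2 < |l_i - z_i| ≤ r + 2` (two indices are `> r-2`, two are `≤ r+2`) and `|l_(i+1) - z_(i+1)| ≤ 2r + 6`; `l` is determined by
`(z, i, l_i, l_(i+1))`: at most `|B| * 3 * 8 * (4r + 13) ≤ 150 r |B|` labels. -/
theorem collar_card (hd : RData n B u δ C1) (hr : 20 ≤ r) :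
    ((Lam (n + 2)).filter (fun l => Sh.Collar r B l)).card ≤ 150 * r * B.card :=
  collar_card_Q9b hd hr

/-- as `light_set` -/
theorem light_set_XF {t : ℕ} (ht : 24000 * (t + 1) * B.card ≤ n + 2) :
    ∃ Bd : Finset ℕ, (∀ a ≤ n + 2, a ∉ Bd → Far n B 0 a ∧ M n u a ≤ 2000 * XF n B u t / (n + 2)) ∧
      1000 * Bd.card ≤ n + 2 := by
  classical
  set S := XF n B u t with hS
  set mu : ℝ := 2000 * S / (n + 2) with hmu
  have hS0 : 0 ≤ S := XF_nonneg t
  have hn0 : (0 : ℝ) < (n : ℝ) + 2 := by positivity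
  set A1 := (range (n + 3)).filter (fun a => ¬ Far n B t a) with hA1
  set A2 := (range (n + 3)).filter (fun a => Far n B t a ∧ mu < M n u a) with hA2
  refine ⟨A1 ∪ A2, ?_, ?_⟩
  · intro a ha hna
    simp only [hA1, hA2, mem_union, mem_filter, mem_range, not_or, not_and, not_not, not_lt] at hna
    have h1 := hna.1 (by omega)
    exact ⟨Q9_far_mono (Nat.zero_le _) h1, hna.2 (by omega) h1⟩
  · have c1 : A1.card ≤ B.card * (3 * (2 * (2 * t + 1))) := by
      have hsub : A1 ⊆ B.biUnion (fun l => Finset.univ.biUnion (fun i : Fin 3 =>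
          (Finset.Icc (l i - t) (l i + t)) ∪
            (Finset.Icc (n + 2 - l i - t) (n + 2 - l i + t)))) := by
        intro a ha
        simp only [hA1, mem_filter, mem_range] at ha
        obtain ⟨ha1, ha2⟩ := ha
        unfold Far at ha2
        push Not at ha2
        obtain ⟨l, hl, i, hi⟩ := ha2
        simp only [mem_biUnion, mem_union, mem_Icc, mem_univ, true_and]
        refine ⟨l, hl, i, ?_⟩
        by_cases h : (t : ℤ) < |(a : ℤ) - l i|
        · right
          have h2 := hi h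
          have h3 := abs_le.1 h2
          omega
        · left
          push Not at h
          have h3 := abs_le.1 h
          omega
      refine le_trans (card_le_card hsub) ?_
      refine card_biUnion_le_card_mul _ _ _ (fun l _ => ?_)
      have h3 := card_biUnion_le_card_mul (Finset.univ : Finset (Fin 3)) (fun i : Fin 3 =>
          (Finset.Icc (l i - t) (l i + t)) ∪
            (Finset.Icc (n + 2 - l i - t) (n + 2 - l i + t))) (2 * (2 * t + 1))
          (fun i _ => by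
            refine le_trans (card_union_le _ _) ?_
            rw [Nat.card_Icc, Nat.card_Icc]
            omega)
      simpa using h3
    have c2 : 2000 * A2.card ≤ n + 2 := by
      rcases eq_or_lt_of_le hS0 with h0 | h0
      · have : A2 = ∅ := by
          rw [Finset.eq_empty_iff_forall_notMem]
          intro a ha
          simp only [hA2, mem_filter, mem_range] at ha
          have h1 : M n u a ≤ S := M_le_XF (by omega) ha.2.1
          have h2 : mu = 0 := by rw [hmu, ← h0]; simp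
          have h3 := ha.2.2
          rw [h2] at h3
          linarith
        rw [this]; simp
      · have h1 : (A2.card : ℝ) * mu ≤ S := by
          have h2 : (A2.card : ℝ) * mu = ∑ a ∈ A2, mu := by
            rw [sum_const, nsmul_eq_mul]
          rw [h2]
          refine le_trans (Finset.sum_le_sum (g := fun a => M n u a) ?_) ?_
          · intro a ha
            simp only [hA2, mem_filter, mem_range] at ha
            exact ha.2.2.le
          · rw [hS]
            unfold XF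
            refine Finset.sum_le_sum_of_subset_of_nonneg ?_ (fun a _ _ => M_nonneg n u a)
            intro a ha
            simp only [hA2, mem_filter, mem_range] at ha ⊢
            exact ⟨ha.1, ha.2.1⟩
        have h3 : (A2.card : ℝ) * (2000 * S) ≤ S * (n + 2) := by
          have h4 : (A2.card : ℝ) * mu * (n + 2) = (A2.card : ℝ) * (2000 * S) := by
            rw [hmu]; field_simp
          rw [← h4]
          exact mul_le_mul_of_nonneg_right h1 hn0.le
        have h5 : (2000 * A2.card : ℝ) ≤ n + 2 := by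
          by_contra hcon
          push Not at hcon
          nlinarith
        exact_mod_cast h5
    have c3 := card_union_le A1 A2
    have h6 : B.card * (3 * (2 * (2 * t + 1))) ≤ B.card * (12 * (t + 1)) :=
      Nat.mul_le_mul_left _ (by omega)
    have h7 : 24000 * (t + 1) * B.card = 2000 * (B.card * (12 * (t + 1))) := by ring
    rw [h7] at ht
    omega

/-- `u_bound` with `mu = 2000 XF/(n+2)`: `6 (M + M') + 80 mu ≤ 12 XF + 160000 XF/(n+2) ≤ 13 XF` -/
theorem collar_Q_XF (hd : RData n B u δ C1) (hn : 200000 ≤ n) (hr : 20 ≤ r) {d : ℕ} (hdr : d + 2 ≤ r)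
    (hsep : ∀ x ∈ SB n B, ∀ y ∈ SB n B, |x - y| ≤ d ∨ 4 * (r : ℤ) + 20 ≤ |x - y|)
    (hrn : 24000 * r * B.card ≤ n + 2) {l : Fin 3 → ℕ} (hl : l ∈ Lam (n + 2)) (h : Sh.Collar r B l) :
    √(q (u l)) ≤ 13 * XF n B u (r - 2 - d) := by
  set t := r - 2 - d with htd
  have hX := XF_nonneg (n := n) (B := B) (u := u) t
  have ht : 24000 * (t + 1) * B.card ≤ n + 2 := by
    refine le_trans (Nat.mul_le_mul_right _ (Nat.mul_le_mul_left _ ?_)) hrn
    omega
  obtain ⟨Bd, hBd, hcard⟩ := light_set_XF (n := n) (B := B) (u := u) ht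
  obtain ⟨i, j, hij, hi, hj⟩ := collar_far hd hr hdr hsep hl h
  have hn0 : (0 : ℝ) < (n : ℝ) + 2 := by positivity
  have hmu : (0 : ℝ) ≤ 2000 * XF n B u t / (n + 2) := by positivity
  have h1 := u_bound hd (by omega) hmu Bd hBd hcard hl hij (Q9_far_mono (Nat.zero_le _) hi)
    (Q9_far_mono (Nat.zero_le _) hj)
  have h2 : M n u (l i) ≤ XF n B u t := M_le_XF (Q9_le hl i) hi
  have h3 : M n u (l j) ≤ XF n B u t := M_le_XF (Q9_le hl j) hj
  have h4 : 80 * (2000 * XF n B u t / (n + 2)) ≤ XF n B u t := by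
    rw [← mul_div_assoc, div_le_iff₀ hn0]
    have h5 : (200000 : ℝ) ≤ n := by exact_mod_cast hn
    nlinarith
  linarith

theorem Fc_le_XF (hd : RData n B u δ C1) (hn : 200000 ≤ n) (hr : 20 ≤ r) {d : ℕ} (hdr : d + 2 ≤ r)
    (hsep : ∀ x ∈ SB n B, ∀ y ∈ SB n B, |x - y| ≤ d ∨ 4 * (r : ℤ) + 20 ≤ |x - y|)
    (hrn : 24000 * r * B.card ≤ n + 2) :
    Sh.Fc n r B u ≤ 150 * r * B.card * (13 * XF n B u (r - 2 - d)) := by
  classical
  have hX := XF_nonneg (n := n) (B := B) (u := u) (r - 2 - d)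
  have e : Sh.Fc n r B u =
      ∑ l ∈ (Lam (n + 2)).filter (fun l => Sh.Collar r B l), √(q (u l)) := by
    unfold Sh.Fc
    simp
  rw [e]
  have h1 : ∑ l ∈ (Lam (n + 2)).filter (fun l => Sh.Collar r B l), √(q (u l)) ≤
      ((Lam (n + 2)).filter (fun l => Sh.Collar r B l)).card • (13 * XF n B u (r - 2 - d)) := by
    refine Finset.sum_le_card_nsmul _ _ _ ?_
    intro l hl
    rw [mem_filter] at hl
    exact collar_Q_XF hd hn hr hdr hsep hrn hl.1 hl.2
  refine le_trans h1 ?_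
  rw [nsmul_eq_mul]
  refine mul_le_mul_of_nonneg_right ?_ (by positivity)
  have h2 : ((Lam (n + 2)).filter (fun l => Sh.Collar r B l)).card ≤ 150 * r * B.card := by
    convert collar_card hd hr
  exact_mod_cast h2

open Classical in
/-- reflection of the index -/
private theorem Q9_mirror (t : ℕ) (F : ℕ → ℝ) :
    ∑ a ∈ (range (n + 3)).filter (fun a => Far n B t a), F (n + 2 - a) =
      ∑ a ∈ (range (n + 3)).filter (fun a => Far n B t a), F a := by
  refine Finset.sum_nbij' (fun a => n + 2 - a) (fun a => n + 2 - a) ?_ ?_ ?_ ?_ ?_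
  · intro a ha
    simp only [mem_filter, mem_range] at ha ⊢
    exact ⟨by omega, Far_symm n B t a (by omega) ha.2⟩
  · intro a ha
    simp only [mem_filter, mem_range] at ha ⊢
    exact ⟨by omega, Far_symm n B t a (by omega) ha.2⟩
  · intro a ha
    simp only [mem_filter, mem_range] at ha
    show n + 2 - (n + 2 - a) = a
    omega
  · intro a ha
    simp only [mem_filter, mem_range] at ha
    show n + 2 - (n + 2 - a) = a
    omega
  · intro a ha
    rfl

open Classical in
/-- sums over rows -/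
private theorem Q9_rowsum (i : Fin 3) (t : ℕ) (F : (Fin 3 → ℕ) → ℝ) :
    ∑ a ∈ (range (n + 3)).filter (fun a => Far n B t a),
        ∑ c ∈ (Lam (n + 1)).filter (fun c => c i = a), F c =
      ∑ c ∈ (Lam (n + 1)).filter (fun c => Far n B t (c i)), F c := by
  rw [← Finset.sum_fiberwise_of_maps_to (s := (Lam (n + 1)).filter (fun c => Far n B t (c i)))
    (t := (range (n + 3)).filter (fun a => Far n B t a)) (g := fun c => c i)]
  · refine Finset.sum_congr rfl fun a ha => ?_
    simp only [mem_filter, mem_range] at ha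
    refine Finset.sum_congr ?_ fun c _ => rfl
    ext c
    simp only [mem_filter]
    constructor
    · rintro ⟨h1, h2⟩
      exact ⟨⟨h1, by rw [h2]; exact ha.2⟩, h2⟩
    · rintro ⟨⟨h1, _⟩, h2⟩
      exact ⟨h1, h2⟩
  · intro c hc
    simp only [mem_filter, mem_range] at hc ⊢
    exact ⟨by have := Q9_le hc.1 i; omega, hc.2⟩

private theorem Q9_two {r : ℕ} {c z : Fin 3 → ℕ} (hc : c 0 + c 1 + c 2 = n + 1)
    (hz : z 0 + z 1 + z 2 = n + 2) {i : Fin 3} (h : ((2 * r + 5 : ℕ) : ℤ) < |(c i : ℤ) - z i|) :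
    ∃ i j, i ≠ j ∧ (r : ℤ) < |(c i : ℤ) - z i| ∧ (r : ℤ) < |(c j : ℤ) - z j| := by
  have h0 : (r : ℤ) < |(c i : ℤ) - z i| := by push_cast at h; omega
  have key : ∃ j, i ≠ j ∧ (r : ℤ) < |(c j : ℤ) - z j| := by
    by_contra hcon
    push Not at hcon
    have a1 := hcon (i + 1) (by fin_cases i <;> decide)
    have a2 := hcon (i + 2) (by fin_cases i <;> decide)
    have b1 := abs_le.1 a1
    have b2 := abs_le.1 a2
    push_cast at h
    rcases abs_cases ((c i : ℤ) - z i) with ⟨c1, c2⟩ | ⟨c1, c2⟩ <;> rw [c1] at h <;>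
      fin_cases i <;> simp at * <;> omega
  obtain ⟨j, hj, hj2⟩ := key
  exact ⟨i, j, hj, h0, hj2⟩

/-- as `S8_le_EE`: if `Far (2r+5) (c i)`, `c ∈ Lam (n+1)`, then `Act r B c` (for `z ∈ B`: `|c_i - z_i| > 2r + 5` and `sum (c - z) = -1`, so another coordinate is `> r` in absolute value) -/
theorem XF_le_EE (hd : RData n B u δ C1) (hr : 20 ≤ r) :
    XF n B u (2 * r + 5) ≤ 2 * EE n u (Sh.wt r B) := by
  classical
  have hB : B.Nonempty := ⟨_, hd.corner 0⟩
  -- symmetric form of the sum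
  have h1 : XF n B u (2 * r + 5) =
      2 * ∑ i, ∑ a ∈ (range (n + 3)).filter (fun a => Far n B (2 * r + 5) a), rowq n u i a := by
    unfold XF M
    rw [Finset.sum_comm]
    rw [Finset.mul_sum]
    refine Finset.sum_congr rfl fun i _ => ?_
    rw [Finset.sum_add_distrib, Q9_mirror (2 * r + 5) (fun a => rowq n u i a)]
    ring
  have h2 : ∀ i : Fin 3, ∑ a ∈ (range (n + 3)).filter (fun a => Far n B (2 * r + 5) a), rowq n u i a =
      ∑ c ∈ (Lam (n + 1)).filter (fun c => Far n B (2 * r + 5) (c i)), q (ed u i c) := by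
    intro i
    exact Q9_rowsum i _ (fun c => q (ed u i c))
  have h3 : EE n u (Sh.wt r B) ≥ ∑ c ∈ Lam (n + 1), Sh.wt r B c * ∑ i, q (ed u i c) := by
    unfold EE
    have : 0 ≤ ∑ b ∈ Lam n, Sh.wt r B b * ∑ i, q (ed u i (b + s i)) :=
      Finset.sum_nonneg fun b _ => mul_nonneg (Sh.wt_nonneg r B b)
        (Finset.sum_nonneg fun i _ => q_nonneg _)
    linarith
  have h4 : ∑ c ∈ Lam (n + 1), Sh.wt r B c * ∑ i, q (ed u i c) =
      ∑ i, ∑ c ∈ Lam (n + 1), Sh.wt r B c * q (ed u i c) := by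
    rw [Finset.sum_comm]
    refine Finset.sum_congr rfl fun c _ => ?_
    rw [Finset.mul_sum]
  have h5 : ∀ i : Fin 3, ∑ c ∈ (Lam (n + 1)).filter (fun c => Far n B (2 * r + 5) (c i)), q (ed u i c) ≤
      ∑ c ∈ Lam (n + 1), Sh.wt r B c * q (ed u i c) := by
    intro i
    rw [Finset.sum_filter]
    refine Finset.sum_le_sum fun c hc => ?_
    split_ifs with hf
    · rw [mem_Lam] at hc
      have hw : Sh.wt r B c = 1 := by
        refine Sh.wt_one_of_act hB (by omega) ?_
        intro z hz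
        have h6 := (hf z hz i).1
        have h7 := hd.sub hz
        rw [mem_Lam] at h7
        exact Q9_two hc h7 h6
      rw [hw, one_mul]
    · exact mul_nonneg (Sh.wt_nonneg r B c) (q_nonneg _)
  rw [h1]
  have h9 : ∑ i, ∑ a ∈ (range (n + 3)).filter (fun a => Far n B (2 * r + 5) a), rowq n u i a ≤
      ∑ i, ∑ c ∈ Lam (n + 1), Sh.wt r B c * q (ed u i c) := by
    refine Finset.sum_le_sum fun i _ => ?_
    rw [h2 i]
    exact h5 i
  linarith

end H24
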