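import Pool.Agent.Lib_MP_27c196_co.V.Q8
import Pool.Agent.Lib_MP_27c196_co.V.Q9

/-! H24 V, piece Q10: the sharp step -/

set_option linter.unusedVariables false

noncomputable section

namespace H24

open Finset

variable {n r : ℕ} {B : Finset (Fin 3 → ℕ)} {u : (Fin 3 → ℕ) → Fin 3 → ℝ} {δ C1 : ℝ}

private lemma q10_s_le (i t : Fin 3) : s i t ≤ 1 := by
  fin_cases i <;> fin_cases t <;> simp [s]

private lemma q10_near (c : Fin 3 → ℕ) (j : Fin 3) : Near 1 c (c + s j) := by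
  intro t
  have h := q10_s_le j t
  simp only [Pi.add_apply]
  rw [abs_le]
  push_cast
  constructor <;> omega

private lemma q10_act {t : ℕ} (ht : 1 ≤ t) {c : Fin 3 → ℕ} (h : Act t B c) (j : Fin 3) : c + s j ∉ B := by
  have e : t - 1 + 1 = t := by omega
  exact notMem_of_act (act_near (t := t - 1) (d := 1) (by rw [e]; exact h) (q10_near c j))

private lemma q10_arith1 {b R X E F : ℝ} (hF : 0 ≤ F) (hX0 : 0 ≤ X)
    (h1 : 13 * X ≤ 1 / 100) (hE : E ≤ 100 * (1 / 20 + (1 / 3) ^ 2 + 13 * X) * F)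
    (hFle : F ≤ 1950 * (b * R * X)) (hsm : 1000000 * (b * R * X) ≤ 1) :
    E + 12 * F ≤ 76050 * (b * R * X) ∧ E + 12 * F ≤ 1 / 10 := by
  have h2 : 100 * (1 / 20 + (1 / 3) ^ 2 + 13 * X) * F ≤ 27 * F := by
    apply mul_le_mul_of_nonneg_right _ hF
    linarith
  constructor <;> linarith

private lemma q10_arith2 {p X Y X' E F : ℝ} (hX0 : 0 ≤ X) (hX'0 : 0 ≤ X') (hX' : X' ≤ X) (hXp : 24 * X ≤ p)
    (hY0 : 0 ≤ Y) (hY : Y ≤ 76050 * p) (hY1 : Y ≤ 1 / 10) (hF : 0 ≤ F) (hFle : F ≤ 1950 * p)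
    (hE : E ≤ 100 * (Y + Y ^ 2 + 13 * X') * F) : 2 * E ≤ 10 ^ 11 * p ^ 2 := by
  have hp : 0 ≤ p := by linarith
  have h1 : Y ^ 2 ≤ 1 / 10 * Y := by nlinarith
  have h2 : 100 * (Y + Y ^ 2 + 13 * X') ≤ 100 * (83656 * p) := by linarith
  have h3 : 0 ≤ 100 * (Y + Y ^ 2 + 13 * X') := by positivity
  have h4 : 100 * (Y + Y ^ 2 + 13 * X') * F ≤ 100 * (83656 * p) * (1950 * p) :=
    mul_le_mul h2 hFle hF (by positivity)
  nlinarith [sq_nonneg p]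

private lemma q10_Fc_nonneg (n r : ℕ) (B : Finset (Fin 3 → ℕ)) (u : (Fin 3 → ℕ) → Fin 3 → ℝ) :
    0 ≤ Sh.Fc n r B u := by
  unfold Sh.Fc
  exact mul_nonneg (by positivity) (Finset.sum_nonneg (fun l _ => Real.sqrt_nonneg _))

/-- SHARP STEP. Put `b = |B| ≥ 1`, `X = XF (r-6-d)`; `hX` gives `13 X ≤ 1/100`.
At the scale `r' = r - 4` (`≥ 20`): `Sh.one_scale` with `η = 1/20`, `Wst = 1/3`, `Q = 13 X` (`collar_Q_XF`, `r' - 2 - d = r - 6 - d`): `EE' ≤ 100 (0.17 + 13 X) Fc' ≤ 27 Fc'`, `Fc' ≤ 1950 b r X` (`Fc_le_XF`), so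
`Y := EE' + 12 Fc' ≤ 39 Fc' ≤ 76050 b r X ≤ 1/10` and `SS' + 6 WW' ≤ Y`.
At the scale `r`: `Act (r-4)` points have `sg ≤ SS' ≤ Y`, `u ≤ WW' ≤ Y` (`Sh.sg_le_SS`, `Sh.u_le_WW`); `Sh.one_scale` with `η = Wst = Y`, `Q = 13 XF (r-2-d) ≤ 13 X`: `EE ≤ 100 (Y + Y² + 13 X) Fc`, `Fc ≤ 1950 b r X`, so
`EE ≤ 100 (1.1 * 76050 b r X + 13 X) 1950 b r X ≤ 2 * 10^10 b² r² X²`; `XF_le_EE`. -/
theorem sharp_step (hd : RData n B u δ C1) (hn : 200000 ≤ n)
    (hη : ∀ i, ∀ c ∈ Lam (n + 1), c + s (i + 1) ∉ B → c + s (i + 2) ∉ B → sg u i c ≤ 1 / 20)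
    (hW : ∀ i, ∀ l ∈ Lam (n + 2), l ∉ B → l i = 0 → u l i ≤ 1 / 3) {d : ℕ} (hr : 24 ≤ r) (hdr : d + 6 ≤ r)
    (hsep : ∀ x ∈ SB n B, ∀ y ∈ SB n B, |x - y| ≤ d ∨ 4 * (r : ℤ) + 20 ≤ |x - y|)
    (hrn : 24000 * r * B.card ≤ n + 2) (hX : 1000000 * B.card * r * XF n B u (r - 6 - d) ≤ 1) :
    XF n B u (2 * r + 5) ≤ 10 ^ 11 * (B.card : ℝ) ^ 2 * (r : ℝ) ^ 2 * XF n B u (r - 6 - d) ^ 2 := by
  obtain ⟨m, rfl⟩ : ∃ m, r = m + 4 := ⟨r - 4, by omega⟩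
  have hm : 20 ≤ m := by omega
  have e1 : m + 4 - 6 - d = m - 2 - d := by omega
  rw [e1] at hX ⊢
  have hBne : B.Nonempty := ⟨_, hd.corner 0⟩
  have hb1 : (1 : ℝ) ≤ B.card := by exact_mod_cast hBne.card_pos
  have hR : (24 : ℝ) ≤ ((m + 4 : ℕ) : ℝ) := by exact_mod_cast hr
  have hmR : (m : ℝ) ≤ ((m + 4 : ℕ) : ℝ) := by exact_mod_cast (by omega : m ≤ m + 4)
  have hm0 : (0 : ℝ) ≤ m := Nat.cast_nonneg m
  have hX0 : 0 ≤ XF n B u (m - 2 - d) := XF_nonneg _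
  have hX'0 : 0 ≤ XF n B u (m + 4 - 2 - d) := XF_nonneg _
  have hX' : XF n B u (m + 4 - 2 - d) ≤ XF n B u (m - 2 - d) := XF_anti (by omega)
  -- separation and size at the scale m
  have hsep' : ∀ x ∈ SB n B, ∀ y ∈ SB n B, |x - y| ≤ d ∨ 4 * (m : ℤ) + 20 ≤ |x - y| := by
    intro x hx y hy
    rcases hsep x hx y hy with h | h
    · exact Or.inl h
    · right
      push_cast at h
      linarith
  have hrn' : 24000 * m * B.card ≤ n + 2 := by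
    refine le_trans ?_ hrn
    apply Nat.mul_le_mul_right
    omega
  -- first use of one scale
  have hF0' := q10_Fc_nonneg n m B u
  have hone := Sh.one_scale hd hm (η := 1 / 20) (Wst := 1 / 3) (Q := 13 * XF n B u (m - 2 - d))
    (by norm_num) (by norm_num) (by positivity)
    (by
      intro i c hc hact
      exact hη i c hc (q10_act (by omega) hact (i + 1)) (q10_act (by omega) hact (i + 2)))
    (by
      intro i l hl hli hact
      exact hW i l hl (notMem_of_act hact) hli)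
    (fun l hl h => collar_Q_XF hd hn hm (by omega) hsep' hrn' hl h)
    (by norm_num)
  have hFc' := Fc_le_XF hd hn hm (by omega) hsep' hrn'
  have hF0 := q10_Fc_nonneg n (m + 4) B u
  have hFc := Fc_le_XF hd hn (by omega : 20 ≤ m + 4) (by omega) hsep hrn
  have hQ := fun l (hl : l ∈ Lam (n + 2)) (h : Sh.Collar (m + 4) B l) =>
    collar_Q_XF hd hn (by omega : 20 ≤ m + 4) (by omega) hsep hrn hl h
  have hfin := XF_le_EE hd (by omega : 20 ≤ m + 4)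
  have hSS0 := Sh.SS_nonneg hd hm
  have hWW0 := Sh.WW_nonneg hd hm
  have hEE0 := Sh.EE_nonneg n u m B
  have hsg := fun (i : Fin 3) (c : Fin 3 → ℕ) (hc : c ∈ Lam (n + 1)) (h : Act m B c) =>
    Sh.sg_le_SS hd hm i hc h
  have hul := fun (i : Fin 3) (l : Fin 3 → ℕ) (hl : l ∈ Lam (n + 2)) (hi : l i = 0) (h : Act m B l) =>
    Sh.u_le_WW hd hm i hl hi h
  have hone2 := fun (Y : ℝ) (hY0 : 0 ≤ Y) (h1 : SS n u (Sh.wt m B) ≤ Y) (h2 : WW n u (Sh.wt m B) ≤ Y)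
      (h3 : Y + Y ^ 2 ≤ 1 / 5) =>
    Sh.one_scale hd (by omega : 20 ≤ m + 4) (η := Y) (Wst := Y) (Q := 13 * XF n B u (m + 4 - 2 - d))
      hY0 hY0 (by positivity)
      (fun i c hc hact => (hsg i c hc hact).trans h1)
      (fun i l hl hli hact => (hul i l hl hli hact).trans h2) hQ h3
  generalize XF n B u (m - 2 - d) = X at *
  generalize XF n B u (m + 4 - 2 - d) = X' at *
  generalize Sh.Fc n m B u = F' at *
  generalize Sh.Fc n (m + 4) B u = F at *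
  generalize EE n u (Sh.wt m B) = E' at *
  generalize SS n u (Sh.wt m B) = S' at *
  generalize WW n u (Sh.wt m B) = W' at *
  obtain ⟨hone1, hone3⟩ := hone
  have hbR0 : 0 ≤ (B.card : ℝ) * ((m + 4 : ℕ) : ℝ) := by positivity
  have hXp : 24 * X ≤ (B.card : ℝ) * ((m + 4 : ℕ) : ℝ) * X := by
    apply mul_le_mul_of_nonneg_right _ hX0
    nlinarith
  have hsm : 1000000 * ((B.card : ℝ) * ((m + 4 : ℕ) : ℝ) * X) ≤ 1 := by
    refine le_trans (le_of_eq ?_) hX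
    ring
  have hFle' : F' ≤ 1950 * ((B.card : ℝ) * ((m + 4 : ℕ) : ℝ) * X) := by
    refine hFc'.trans ?_
    have h1 : (m : ℝ) * (B.card * X) ≤ ((m + 4 : ℕ) : ℝ) * (B.card * X) :=
      mul_le_mul_of_nonneg_right hmR (by positivity)
    nlinarith
  have hFle : F ≤ 1950 * ((B.card : ℝ) * ((m + 4 : ℕ) : ℝ) * X) := by
    refine hFc.trans ?_
    have h1 : (B.card : ℝ) * ((m + 4 : ℕ) : ℝ) * X' ≤ (B.card : ℝ) * ((m + 4 : ℕ) : ℝ) * X :=
      mul_le_mul_of_nonneg_left hX' hbR0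
    nlinarith
  obtain ⟨hY1, hY2⟩ := q10_arith1 hF0' hX0 (by linarith) hone1 hFle' hsm
  have hY0 : 0 ≤ E' + 12 * F' := by positivity
  obtain ⟨hE, -⟩ := hone2 (E' + 12 * F') hY0 (by linarith) (by linarith) (by nlinarith)
  have h5 := q10_arith2 hX0 hX'0 hX' hXp hY0 hY1 hY2 hF0 hFle hE
  refine hfin.trans (h5.trans (le_of_eq ?_))
  ring

end H24
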