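import Pool.Agent.Lib_MP_27c196_co.R.P2
import Pool.Agent.Lib_MP_27c196_co.V.Q5

/-! H24 R, piece P7: the wall part of identity (A) (blueprint R8) -/

set_option linter.unusedVariables false

noncomputable section

namespace H24.Sh

open Finset H24

variable {n r : ℕ} {B : Finset (Fin 3 → ℕ)} {u : (Fin 3 → ℕ) → Fin 3 → ℝ} {δ C1 : ℝ}

/-- the truncated size of `u l` on the collar -/
private def P7_cf (r : ℕ) (B : Finset (Fin 3 → ℕ)) (u : (Fin 3 → ℕ) → Fin 3 → ℝ) (l : Fin 3 → ℕ) : ℝ :=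
  open Classical in if Collar r B l then √(q (u l)) else 0

private lemma P7_Fc (n r : ℕ) (B : Finset (Fin 3 → ℕ)) (u : (Fin 3 → ℕ) → Fin 3 → ℝ) :
    Fc n r B u = (1 / ((1 : ℕ) : ℝ)) * ∑ l ∈ Lam (n + 2), P7_cf r B u l := by
  unfold Fc P7_cf
  rw [Finset.sum_filter]

private lemma P7_cf_nonneg (r : ℕ) (B : Finset (Fin 3 → ℕ)) (u : (Fin 3 → ℕ) → Fin 3 → ℝ)
    (l : Fin 3 → ℕ) : 0 ≤ P7_cf r B u l := by
  unfold P7_cf
  split_ifs
  · exact Real.sqrt_nonneg _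
  · exact le_rfl

private lemma P7_cf_collar {l : Fin 3 → ℕ} (h : Collar r B l) : P7_cf r B u l = √(q (u l)) := by
  unfold P7_cf
  rw [if_pos h]

private lemma P7_near {k k' j j' d : ℕ} (i : Fin 3) (h1 : |(j : ℤ) - j'| ≤ d)
    (h2 : |((k - 0 - j : ℕ) : ℤ) - ((k' - 0 - j' : ℕ) : ℤ)| ≤ d) :
    Near d (lab k i 0 j) (lab k' i 0 j') := by
  intro t
  unfold lab
  split_ifs
  · simp
  · exact h1
  · exact h2

private lemma P7_abel (N : ℕ) (φ W G : ℕ → ℝ) (h0 : φ 0 = 0) (h1 : φ (N + 1) = 0) :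
    ∑ j ∈ range (N + 2), φ j * (W (j + 1) * G j - W j * G (j + 1)) =
      ∑ j ∈ range (N + 1), (φ j * W (j + 1) * (G j - G (j + 2)) -
        (φ (j + 1) - φ j) * W (j + 1) * G (j + 2)) := by
  rw [Finset.sum_range_succ, h1, zero_mul, add_zero]
  have h2 := Finset.sum_range_sub (fun j => φ j * W j * G (j + 1)) (N + 1)
  rw [h0, h1] at h2
  rw [← sub_eq_zero, ← Finset.sum_sub_distrib]
  have h3 : ∀ j ∈ range (N + 1), φ j * (W (j + 1) * G j - W j * G (j + 1)) -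
      (φ j * W (j + 1) * (G j - G (j + 2)) - (φ (j + 1) - φ j) * W (j + 1) * G (j + 2)) =
      φ (j + 1) * W (j + 1) * G (j + 1 + 1) - φ j * W j * G (j + 1) := by
    intro j _
    ring
  rw [Finset.sum_congr rfl h3, h2]
  ring

private lemma P7_corner1 (hd : RData n B u δ C1) (i : Fin 3) : lab (n + 2) i 0 (n + 2) ∈ B := by
  have h := lab_end n i 0 (by omega)
  rw [Nat.sub_zero] at h
  rw [h]
  exact hd.corner (i + 1)

private lemma P7_corner0 (hd : RData n B u δ C1) (i : Fin 3) : lab (n + 2) i 0 0 ∈ B := by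
  have h := lab_end n (i + 2) (n + 2) le_rfl
  rw [Nat.sub_self] at h
  have h3 : i + 2 + 1 = i := by fin_cases i <;> rfl
  rw [h3] at h
  rw [← h]
  exact hd.corner (i + 2)

private lemma P7_Bne (hd : RData n B u δ C1) : B.Nonempty := ⟨_, hd.corner 0⟩

private lemma P7_wall_nonneg (hd : RData n B u δ C1) (hr : 20 ≤ r) (i : Fin 3) {l : Fin 3 → ℕ}
    (hl : l ∈ Lam (n + 2)) (h0 : l i = 0) {t : ℕ} (ha : Act t B l) : 0 ≤ u l i := by
  have h := hd.wall i l hl (notMem_of_act ha) h0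
  have := hd.dpos
  linarith

private lemma P7_wt_mul_nonneg (hd : RData n B u δ C1) (hr : 20 ≤ r) (i : Fin 3) {l : Fin 3 → ℕ}
    (hl : l ∈ Lam (n + 2)) (h0 : l i = 0) : 0 ≤ wt r B l * u l i := by
  rcases (wt_nonneg r B l).eq_or_lt with h | h
  · rw [← h, zero_mul]
  · exact mul_nonneg h.le
      (P7_wall_nonneg hd hr i hl h0 (act_of_wt_pos (P7_Bne hd) (by omega) h))

private lemma P7_dg (hd : RData n B u δ C1) {η Wst : ℝ} (hη0 : 0 ≤ η) (hW0 : 0 ≤ Wst)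
    (hη : ∀ i, ∀ c ∈ Lam (n + 1), Act (r - 4) B c → sg u i c ≤ η)
    (hW : ∀ i, ∀ l ∈ Lam (n + 2), l i = 0 → Act (r - 4) B l → u l i ≤ Wst)
    (i : Fin 3) {j : ℕ} (hj : j ≤ n + 1) (hc : Act (r - 4) B (lab (n + 1) i 0 j))
    (h0 : Act (r - 4) B (lab (n + 2) i 0 j)) (h1 : Act (r - 4) B (lab (n + 2) i 0 (j + 1))) :
    |g i (u (lab (n + 2) i 0 j)) - g i (u (lab (n + 2) i 0 (j + 1)))| ≤ 2 * (η + Wst ^ 2) := by
  have hcm : lab (n + 1) i 0 j ∈ Lam (n + 1) := lab_mem _ _ _ _ (by omega)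
  have n1 : lab (n + 1) i 0 j + s (i + 1) ∉ B := by rw [lab_add1]; exact notMem_of_act h1
  have n2 : lab (n + 1) i 0 j + s (i + 2) ∉ B := by
    rw [lab_add2 n i 0 j (by omega)]; exact notMem_of_act h0
  have hs0 := hd.sig i _ hcm n1 n2
  have hsm := hd.small i _ hcm n1 n2
  have hs1 := hη i _ hcm hc
  have hsum : ed u i (lab (n + 1) i 0 j) 0 + ed u i (lab (n + 1) i 0 j) 1 +
      ed u i (lab (n + 1) i 0 j) 2 = 0 := by
    simp only [ed]
    linarith [hd.sum0 (lab (n + 1) i 0 j + s (i + 1)), hd.sum0 (lab (n + 1) i 0 j + s (i + 2))]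
  have hq := q_split i (ed u i (lab (n + 1) i 0 j)) hsum
  have hg := g_ed_lab n u i i 0 j (by omega)
  have hdi := ed_lab n u i 0 j (by omega) i
  have m0 : lab (n + 2) i 0 j ∈ Lam (n + 2) := lab_mem _ _ _ _ (by omega)
  have m1 : lab (n + 2) i 0 (j + 1) ∈ Lam (n + 2) := lab_mem _ _ _ _ (by omega)
  have w0 := hd.wall i _ m0 (notMem_of_act h0) (lab_i _ _ _ _)
  have w1 := hd.wall i _ m1 (notMem_of_act h1) (lab_i _ _ _ _)
  have v0 := hW i _ m0 (lab_i _ _ _ _) h0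
  have v1 := hW i _ m1 (lab_i _ _ _ _) h1
  have hdp := hd.dpos
  unfold sg at hs0 hs1
  have e : g i (u (lab (n + 2) i 0 j)) - g i (u (lab (n + 2) i 0 (j + 1))) =
      - g i (ed u i (lab (n + 1) i 0 j)) := by rw [hg]; ring
  rw [e, abs_neg]
  generalize g i (ed u i (lab (n + 1) i 0 j)) = x at *
  generalize q (ed u i (lab (n + 1) i 0 j)) = Q at *
  have hd2 : (ed u i (lab (n + 1) i 0 j) i) ^ 2 ≤ Wst ^ 2 := by
    rw [hdi]
    apply sq_le_sq'
    · linarith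
    · linarith
  generalize ed u i (lab (n + 1) i 0 j) i = d at *
  have hW2 : 0 ≤ Wst ^ 2 := sq_nonneg _
  have hx2 : x ^ 2 ≤ 4 / 100 := by nlinarith [sq_nonneg d]
  have hxa : -(1 / 5) ≤ x := by nlinarith
  rw [abs_le]
  constructor
  · rcases le_or_gt 0 x with hx | hx
    · linarith
    · have : x ^ 2 ≤ (1 / 5) * (-x) := by nlinarith
      nlinarith
  · have : 0 ≤ Q := by rw [hq]; positivity
    linarith

/-- the two sums of one row -/
private lemma P7_term (hd : RData n B u δ C1) (hr : 20 ≤ r) {η Wst Q : ℝ} (hη0 : 0 ≤ η) (hW0 : 0 ≤ Wst)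
    (hQ0 : 0 ≤ Q)
    (hη : ∀ i, ∀ c ∈ Lam (n + 1), Act (r - 4) B c → sg u i c ≤ η)
    (hW : ∀ i, ∀ l ∈ Lam (n + 2), l i = 0 → Act (r - 4) B l → u l i ≤ Wst)
    (hQ : ∀ l ∈ Lam (n + 2), Collar r B l → √(q (u l)) ≤ Q) (i : Fin 3) {j : ℕ} (hj : j ≤ n) :
    |wt r B (lab (n + 1) i 0 j) * u (lab (n + 2) i 0 (j + 1)) i *
        (g i (u (lab (n + 2) i 0 j)) - g i (u (lab (n + 2) i 0 (j + 2)))) -
      (wt r B (lab (n + 1) i 0 (j + 1)) - wt r B (lab (n + 1) i 0 j)) *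
        u (lab (n + 2) i 0 (j + 1)) i * g i (u (lab (n + 2) i 0 (j + 2)))| ≤
      4 * (η + Wst ^ 2) * (wt r B (lab (n + 2) i 0 (j + 1)) * u (lab (n + 2) i 0 (j + 1)) i +
        1 / ((1 : ℕ) : ℝ) * (1.2 * P7_cf r B u (lab (n + 2) i 0 (j + 1)))) +
      1 / ((1 : ℕ) : ℝ) * (2.4 * Q * P7_cf r B u (lab (n + 2) i 0 (j + 1))) := by
  have hBne := P7_Bne hd
  have hr0 : (0 : ℝ) < r := by exact_mod_cast (by omega : 0 < r)
  have m1 : lab (n + 2) i 0 (j + 1) ∈ Lam (n + 2) := lab_mem _ _ _ _ (by omega)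
  have m2 : lab (n + 2) i 0 (j + 2) ∈ Lam (n + 2) := lab_mem _ _ _ _ (by omega)
  have z1 : lab (n + 2) i 0 (j + 1) i = 0 := lab_i _ _ _ _
  have mc0 : lab (n + 1) i 0 j ∈ Lam (n + 1) := lab_mem _ _ _ _ (by omega)
  have mc1 : lab (n + 1) i 0 (j + 1) ∈ Lam (n + 1) := lab_mem _ _ _ _ (by omega)
  -- nearness
  have nc0l0 : Near 2 (lab (n + 1) i 0 j) (lab (n + 2) i 0 j) :=
    P7_near i (by rw [abs_le]; omega) (by rw [abs_le]; omega)
  have nc0l1 : Near 2 (lab (n + 1) i 0 j) (lab (n + 2) i 0 (j + 1)) :=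
    P7_near i (by rw [abs_le]; omega) (by rw [abs_le]; omega)
  have nc0l2 : Near 2 (lab (n + 1) i 0 j) (lab (n + 2) i 0 (j + 2)) :=
    P7_near i (by rw [abs_le]; omega) (by rw [abs_le]; omega)
  have nc0c1 : Near 2 (lab (n + 1) i 0 j) (lab (n + 1) i 0 (j + 1)) :=
    P7_near i (by rw [abs_le]; omega) (by rw [abs_le]; omega)
  have nl1c0 : Near 2 (lab (n + 2) i 0 (j + 1)) (lab (n + 1) i 0 j) :=
    P7_near i (by rw [abs_le]; omega) (by rw [abs_le]; omega)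
  have nl1c1 : Near 2 (lab (n + 2) i 0 (j + 1)) (lab (n + 1) i 0 (j + 1)) :=
    P7_near i (by rw [abs_le]; omega) (by rw [abs_le]; omega)
  have nl2c0 : Near 2 (lab (n + 2) i 0 (j + 2)) (lab (n + 1) i 0 j) :=
    P7_near i (by rw [abs_le]; omega) (by rw [abs_le]; omega)
  have nl2c1 : Near 2 (lab (n + 2) i 0 (j + 2)) (lab (n + 1) i 0 (j + 1)) :=
    P7_near i (by rw [abs_le]; omega) (by rw [abs_le]; omega)
  have n1l1c0 : Near 1 (lab (n + 1) i 0 j) (lab (n + 2) i 0 (j + 1)) :=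
    P7_near i (by rw [abs_le]; omega) (by rw [abs_le]; omega)
  have n1c1c0 : Near 1 (lab (n + 1) i 0 (j + 1)) (lab (n + 1) i 0 j) :=
    P7_near i (by rw [abs_le]; omega) (by rw [abs_le]; omega)
  rw [mem_Lam] at mc0 mc1
  have s1 := m1
  have s2 := m2
  rw [mem_Lam] at s1 s2
  -- the wall value
  have hWW := P7_wt_mul_nonneg hd hr i m1 z1
  have hcf := P7_cf_nonneg r B u (lab (n + 2) i 0 (j + 1))
  have hφ := wt_nonneg r B (lab (n + 1) i 0 j)
  have hcomp := comp_le i (u (lab (n + 2) i 0 (j + 1))) (hd.sum0 _)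
  have hgl := g_le i (u (lab (n + 2) i 0 (j + 2))) (hd.sum0 _)
  -- comparison of `wt c_j` and `wt l_(j+1)`
  have hcmp : wt r B (lab (n + 1) i 0 j) * u (lab (n + 2) i 0 (j + 1)) i ≤
      wt r B (lab (n + 2) i 0 (j + 1)) * u (lab (n + 2) i 0 (j + 1)) i +
        1 / ((1 : ℕ) : ℝ) * (1.2 * P7_cf r B u (lab (n + 2) i 0 (j + 1))) := by
    by_cases hne : wt r B (lab (n + 1) i 0 j) = wt r B (lab (n + 2) i 0 (j + 1))
    · rw [hne]
      have : 0 ≤ 1 / ((1 : ℕ) : ℝ) * (1.2 * P7_cf r B u (lab (n + 2) i 0 (j + 1))) := by positivity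
      linarith
    · have hcol : Collar r B (lab (n + 2) i 0 (j + 1)) :=
        ⟨_, nl1c0, by omega, by omega, hne⟩
      rw [P7_cf_collar hcol]
      have hl := wt_lip (B := B) (by omega : 0 < r) n1l1c0
      rw [Nat.cast_one, show (1 : ℝ) / 1 = 1 / ((1 : ℕ) : ℝ) by simp] at hl
      have h3 : (wt r B (lab (n + 1) i 0 j) - wt r B (lab (n + 2) i 0 (j + 1))) *
          u (lab (n + 2) i 0 (j + 1)) i ≤ 1 / ((1 : ℕ) : ℝ) * (1.2 * √(q (u (lab (n + 2) i 0 (j + 1))))) := by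
        refine (le_abs_self _).trans ?_
        rw [abs_mul]
        exact mul_le_mul hl hcomp (abs_nonneg _) (by positivity)
      linarith
  -- first part
  have hA : |wt r B (lab (n + 1) i 0 j) * u (lab (n + 2) i 0 (j + 1)) i *
        (g i (u (lab (n + 2) i 0 j)) - g i (u (lab (n + 2) i 0 (j + 2))))| ≤
      4 * (η + Wst ^ 2) * (wt r B (lab (n + 2) i 0 (j + 1)) * u (lab (n + 2) i 0 (j + 1)) i +
        1 / ((1 : ℕ) : ℝ) * (1.2 * P7_cf r B u (lab (n + 2) i 0 (j + 1)))) := by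
    have hW2 : 0 ≤ Wst ^ 2 := sq_nonneg _
    rcases hφ.eq_or_lt with h | h
    · rw [← h, zero_mul, zero_mul, abs_zero]
      positivity
    · have a0 : Act r B (lab (n + 1) i 0 j) := act_of_wt_pos hBne (by omega) h
      have a2 : Act (r - 2 + 2) B (lab (n + 1) i 0 j) := act_mono (by omega) a0
      have ac0 : Act (r - 4) B (lab (n + 1) i 0 j) := act_mono (by omega) a0
      have ac1 : Act (r - 4) B (lab (n + 1) i 0 (j + 1)) := act_mono (by omega) (act_near a2 nc0c1)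
      have al0 : Act (r - 4) B (lab (n + 2) i 0 j) := act_mono (by omega) (act_near a2 nc0l0)
      have al1 : Act (r - 4) B (lab (n + 2) i 0 (j + 1)) := act_mono (by omega) (act_near a2 nc0l1)
      have al2 : Act (r - 4) B (lab (n + 2) i 0 (j + 2)) := act_mono (by omega) (act_near a2 nc0l2)
      have d0 := P7_dg hd hη0 hW0 hη hW i (by omega : j ≤ n + 1) ac0 al0 al1
      have d1 := P7_dg hd hη0 hW0 hη hW i (by omega : j + 1 ≤ n + 1) ac1 al1 al2
      have hWn := P7_wall_nonneg hd hr i m1 z1 al1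
      have hD : |g i (u (lab (n + 2) i 0 j)) - g i (u (lab (n + 2) i 0 (j + 2)))| ≤
          4 * (η + Wst ^ 2) := by
        have h5 := abs_sub_le (g i (u (lab (n + 2) i 0 j))) (g i (u (lab (n + 2) i 0 (j + 1))))
          (g i (u (lab (n + 2) i 0 (j + 2))))
        have h6 : j + 1 + 1 = j + 2 := rfl
        rw [h6] at d1
        linarith
      rw [abs_mul, abs_of_nonneg (mul_nonneg hφ hWn), mul_comm]
      exact mul_le_mul hD hcmp (mul_nonneg hφ hWn) (by positivity)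
  -- second part
  have hC : |(wt r B (lab (n + 1) i 0 (j + 1)) - wt r B (lab (n + 1) i 0 j)) *
        u (lab (n + 2) i 0 (j + 1)) i * g i (u (lab (n + 2) i 0 (j + 2)))| ≤
      1 / ((1 : ℕ) : ℝ) * (2.4 * Q * P7_cf r B u (lab (n + 2) i 0 (j + 1))) := by
    by_cases hne : wt r B (lab (n + 1) i 0 (j + 1)) = wt r B (lab (n + 1) i 0 j)
    · rw [hne, sub_self, zero_mul, zero_mul, abs_zero]
      positivity
    · have hcol1 : Collar r B (lab (n + 2) i 0 (j + 1)) := by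
        by_cases h7 : wt r B (lab (n + 1) i 0 j) = wt r B (lab (n + 2) i 0 (j + 1))
        · exact ⟨_, nl1c1, by omega, by omega, by rw [← h7]; exact hne⟩
        · exact ⟨_, nl1c0, by omega, by omega, h7⟩
      have hcol2 : Collar r B (lab (n + 2) i 0 (j + 2)) := by
        by_cases h7 : wt r B (lab (n + 1) i 0 j) = wt r B (lab (n + 2) i 0 (j + 2))
        · exact ⟨_, nl2c1, by omega, by omega, by rw [← h7]; exact hne⟩
        · exact ⟨_, nl2c0, by omega, by omega, h7⟩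
      rw [P7_cf_collar hcol1]
      have hl := wt_lip (B := B) (by omega : 0 < r) n1c1c0
      rw [Nat.cast_one, show (1 : ℝ) / 1 = 1 / ((1 : ℕ) : ℝ) by simp] at hl
      have hq2 := hQ _ m2 hcol2
      have hg2 : |g i (u (lab (n + 2) i 0 (j + 2)))| ≤ 2 * Q := by linarith
      rw [abs_mul, abs_mul]
      have h8 : |wt r B (lab (n + 1) i 0 (j + 1)) - wt r B (lab (n + 1) i 0 j)| *
          |u (lab (n + 2) i 0 (j + 1)) i| ≤ 1 / ((1 : ℕ) : ℝ) * (1.2 * √(q (u (lab (n + 2) i 0 (j + 1))))) :=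
        mul_le_mul hl hcomp (abs_nonneg _) (by positivity)
      have h9 := mul_le_mul h8 hg2 (abs_nonneg _) (by positivity)
      refine h9.trans (le_of_eq ?_)
      ring
  exact (abs_sub _ _).trans (add_le_add hA hC)

/-- one row -/
private lemma P7_row (hd : RData n B u δ C1) (hr : 20 ≤ r) {η Wst Q : ℝ} (hη0 : 0 ≤ η) (hW0 : 0 ≤ Wst)
    (hQ0 : 0 ≤ Q)
    (hη : ∀ i, ∀ c ∈ Lam (n + 1), Act (r - 4) B c → sg u i c ≤ η)
    (hW : ∀ i, ∀ l ∈ Lam (n + 2), l i = 0 → Act (r - 4) B l → u l i ≤ Wst)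
    (hQ : ∀ l ∈ Lam (n + 2), Collar r B l → √(q (u l)) ≤ Q) (i : Fin 3) :
    2 * |∑ c ∈ (Lam (n + 1)).filter (fun c => c i = 0), tau u i c * wt r B c| ≤
      4 * (η + Wst ^ 2) * (∑ l ∈ (Lam (n + 2)).filter (fun l => l i = 0), wt r B l * u l i +
        1.2 * Fc n r B u) + 2.4 * Q * Fc n r B u := by
  have hr0 : (0 : ℝ) < r := by exact_mod_cast (by omega : 0 < r)
  have hW2 : 0 ≤ Wst ^ 2 := sq_nonneg _
  have e0 : wt r B (lab (n + 1) i 0 0) = 0 :=
    wt_zero_near (P7_corner0 hd i) (by omega)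
      (P7_near i (by rw [abs_le]; omega) (by rw [abs_le]; omega))
  have e1 : wt r B (lab (n + 1) i 0 (n + 1)) = 0 :=
    wt_zero_near (P7_corner1 hd i) (by omega)
      (P7_near i (by rw [abs_le]; omega) (by rw [abs_le]; omega))
  have f0 : wt r B (lab (n + 2) i 0 0) = 0 :=
    wt_zero_near (P7_corner0 hd i) (by omega)
      (P7_near i (by rw [abs_le]; omega) (by rw [abs_le]; omega))
  have f1 : wt r B (lab (n + 2) i 0 (n + 2)) = 0 :=
    wt_zero_near (P7_corner1 hd i) (by omega)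
      (P7_near i (by rw [abs_le]; omega) (by rw [abs_le]; omega))
  have habel := P7_abel n (fun j => wt r B (lab (n + 1) i 0 j)) (fun j => u (lab (n + 2) i 0 j) i)
    (fun j => g i (u (lab (n + 2) i 0 j))) e0 e1
  have hsum : 2 * ∑ c ∈ (Lam (n + 1)).filter (fun c => c i = 0), tau u i c * wt r B c =
      ∑ j ∈ range (n + 1), (wt r B (lab (n + 1) i 0 j) * u (lab (n + 2) i 0 (j + 1)) i *
        (g i (u (lab (n + 2) i 0 j)) - g i (u (lab (n + 2) i 0 (j + 2)))) -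
      (wt r B (lab (n + 1) i 0 (j + 1)) - wt r B (lab (n + 1) i 0 j)) *
        u (lab (n + 2) i 0 (j + 1)) i * g i (u (lab (n + 2) i 0 (j + 2)))) := by
    rw [row_param, Nat.sub_zero, Finset.mul_sum, ← habel]
    apply Finset.sum_congr rfl
    intro j hj
    rw [mem_range] at hj
    unfold tau
    rw [lab_add1, lab_add2 n i 0 j (by omega), om_cyc i _ _ (hd.sum0 _) (hd.sum0 _)]
    ring
  have h2 : 2 * |∑ c ∈ (Lam (n + 1)).filter (fun c => c i = 0), tau u i c * wt r B c| =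
      |2 * ∑ c ∈ (Lam (n + 1)).filter (fun c => c i = 0), tau u i c * wt r B c| := by
    rw [abs_mul, abs_of_pos (by norm_num : (0 : ℝ) < 2)]
  rw [h2, hsum]
  refine (Finset.abs_sum_le_sum_abs _ _).trans ?_
  have h3 := Finset.sum_le_sum (fun j (hj : j ∈ range (n + 1)) =>
    P7_term hd hr hη0 hW0 hQ0 hη hW hQ i (Nat.lt_succ_iff.mp (mem_range.mp hj)))
  refine h3.trans ?_
  rw [Finset.sum_add_distrib, ← Finset.mul_sum, Finset.sum_add_distrib, ← Finset.mul_sum,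
    ← Finset.mul_sum, ← Finset.mul_sum, ← Finset.mul_sum]
  have hWsum : ∑ l ∈ (Lam (n + 2)).filter (fun l => l i = 0), wt r B l * u l i =
      ∑ j ∈ range (n + 1), wt r B (lab (n + 2) i 0 (j + 1)) * u (lab (n + 2) i 0 (j + 1)) i := by
    rw [row_param (n + 1) i 0, Nat.sub_zero, Finset.sum_range_succ, Finset.sum_range_succ', f0, f1]
    ring
  have hcsum : ∑ j ∈ range (n + 1), P7_cf r B u (lab (n + 2) i 0 (j + 1)) ≤
      ∑ l ∈ Lam (n + 2), P7_cf r B u l := by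
    have h4 : ∑ l ∈ (Lam (n + 2)).filter (fun l => l i = 0), P7_cf r B u l =
        ∑ j ∈ range (n + 1), P7_cf r B u (lab (n + 2) i 0 (j + 1)) +
          P7_cf r B u (lab (n + 2) i 0 0) + P7_cf r B u (lab (n + 2) i 0 (n + 2)) := by
      rw [row_param (n + 1) i 0, Nat.sub_zero, Finset.sum_range_succ, Finset.sum_range_succ']
    have h5 := P7_cf_nonneg r B u (lab (n + 2) i 0 0)
    have h6 := P7_cf_nonneg r B u (lab (n + 2) i 0 (n + 2))
    have h7 : ∑ l ∈ (Lam (n + 2)).filter (fun l => l i = 0), P7_cf r B u l ≤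
        ∑ l ∈ Lam (n + 2), P7_cf r B u l :=
      Finset.sum_le_sum_of_subset_of_nonneg (Finset.filter_subset _ _)
        (fun l _ _ => P7_cf_nonneg r B u l)
    linarith
  have hF : 1 / ((1 : ℕ) : ℝ) * ∑ j ∈ range (n + 1), P7_cf r B u (lab (n + 2) i 0 (j + 1)) ≤ Fc n r B u := by
    rw [P7_Fc]
    exact mul_le_mul_of_nonneg_left hcsum (by positivity)
  rw [hWsum]
  have e5 : 1 / ((1 : ℕ) : ℝ) * (1.2 * ∑ j ∈ range (n + 1), P7_cf r B u (lab (n + 2) i 0 (j + 1))) =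
      1.2 * (1 / ((1 : ℕ) : ℝ) * ∑ j ∈ range (n + 1), P7_cf r B u (lab (n + 2) i 0 (j + 1))) := by ring
  have e6 : 1 / ((1 : ℕ) : ℝ) * (2.4 * Q * ∑ j ∈ range (n + 1), P7_cf r B u (lab (n + 2) i 0 (j + 1))) =
      2.4 * Q * (1 / ((1 : ℕ) : ℝ) * ∑ j ∈ range (n + 1), P7_cf r B u (lab (n + 2) i 0 (j + 1))) := by ring
  rw [e5, e6]
  gcongr

/-- Fix `i` and put `c_j = lab (n+1) i 0 j` (`0 ≤ j ≤ n+1`), `l_j = lab (n+2) i 0 j` (`0 ≤ j ≤ n+2`), `φ_j = wt r B c_j`,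
`W_j = u (l_j) i`, `g_j = g i (u (l_j))`. The edge `(i, c_j)` joins `l_j` to `l_(j+1)` (`ed_lab`), `tau u i c_j = om (u l_(j+1)) (u l_j)
= (W_(j+1) g_j - W_j g_(j+1)) / 2` (`om_cyc`), and the sum over `c_i = 0` is `sum_{j ≤ n+1}` (`row_param`).
`φ_0 = φ_(n+1) = 0` (corners are in `B`, `wt_zero_near`). Abel summation:
`2 sum_j φ_j tau_j = sum_j φ_j W_(j+1) (g_j - g_(j+1)) + sum_{j ≤ n} φ_j W_(j+1) (g_(j+1) - g_(j+2)) - sum_{j ≤ n} (φ_(j+1) - φ_j) W_(j+1) g_(j+2)`.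
If `φ_j > 0`: `Act r B c_j`, hence `Act (r-2)` for `l_j, l_(j+1), l_(j+2), c_(j+1)`; so `0 ≤ W ≤ Wst` there (`hd.wall`, `hW`),
and for the edges `(i,c_j)`, `(i,c_(j+1))`: `dg = sg - q(d)`, `q(d) = 3/4 dW^2 + 1/4 dg^2 ≤ 1/100` (`q_split`), so `|dg| ≤ 2 (η + Wst^2)`.
If `φ_(j+1) ≠ φ_j`: `l_(j+1)` and `l_(j+2)` are collar labels (both `c_j` and `c_(j+1)` are within max-norm distance 2 of each),
`|φ_(j+1) - φ_j| ≤ 1/r`, `|W_(j+1)| ≤ 1.2 sqrt q`, `|g_(j+2)| ≤ 2 Q`.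
`sum_j φ_j W_(j+1) ≤ sum_{l_i = 0} wt(l) u_i(l) + (1/r) sum_{collar} |u_i|` since `l_(j+1)` is at distance 1 from `c_j`. -/
theorem wall_part (hd : RData n B u δ C1) (hr : 20 ≤ r) {η Wst Q : ℝ} (hη0 : 0 ≤ η) (hW0 : 0 ≤ Wst) (hQ0 : 0 ≤ Q)
    (hη : ∀ i, ∀ c ∈ Lam (n + 1), Act (r - 4) B c → sg u i c ≤ η)
    (hW : ∀ i, ∀ l ∈ Lam (n + 2), l i = 0 → Act (r - 4) B l → u l i ≤ Wst)
    (hQ : ∀ l ∈ Lam (n + 2), Collar r B l → √(q (u l)) ≤ Q) :
    |∑ i, ∑ c ∈ (Lam (n + 1)).filter (fun c => c i = 0), tau u i c * wt r B c| ≤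
      2 * (η + Wst ^ 2) * (WW n u (wt r B) + 4 * Fc n r B u) + 10 * Q * Fc n r B u := by
  have hrow := P7_row hd hr hη0 hW0 hQ0 hη hW hQ
  have hr0 : (0 : ℝ) < r := by exact_mod_cast (by omega : 0 < r)
  have hF0 : 0 ≤ Fc n r B u := by
    rw [P7_Fc]
    exact mul_nonneg (by positivity) (Finset.sum_nonneg (fun l _ => P7_cf_nonneg r B u l))
  have h1 := Finset.abs_sum_le_sum_abs
    (fun i : Fin 3 => ∑ c ∈ (Lam (n + 1)).filter (fun c => c i = 0), tau u i c * wt r B c) Finset.univ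
  have h2 := Finset.sum_le_sum (fun (i : Fin 3) (_ : i ∈ Finset.univ) => hrow i)
  rw [← Finset.mul_sum, Finset.sum_add_distrib, ← Finset.mul_sum, Finset.sum_add_distrib] at h2
  simp only [Finset.sum_const, Finset.card_univ, Fintype.card_fin, nsmul_eq_mul, Nat.cast_ofNat] at h2
  have hW2 : 0 ≤ Wst ^ 2 := sq_nonneg _
  have p1 : 0 ≤ (η + Wst ^ 2) * Fc n r B u := by positivity
  have p2 : 0 ≤ Q * Fc n r B u := by positivity
  unfold WW
  nlinarith

end H24.Sh
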