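import Pool.Agent.Lib_MP_27c196_co.V.Q6
import Pool.Agent.Lib_MP_27c196_co.V.Q7

/-! H24 R, piece P8: one scale (blueprint R9) -/

set_option linter.unusedVariables false

noncomputable section

namespace H24.Sh

open Finset H24

variable {n r : ℕ} {B : Finset (Fin 3 → ℕ)} {u : (Fin 3 → ℕ) → Fin 3 → ℝ} {δ C1 : ℝ}

private lemma p8_s_le (i t : Fin 3) : s i t ≤ 1 := by
  fin_cases i <;> fin_cases t <;> simp [s]

private lemma p8_s_le2 (i j t : Fin 3) (h : i ≠ j) : s i t + s j t ≤ 1 := by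
  fin_cases i <;> fin_cases j <;> fin_cases t <;> simp [s] at h ⊢

private lemma p8_near1 (c : Fin 3 → ℕ) (j : Fin 3) : Near 1 c (c + s j) := by
  intro t
  have h := p8_s_le j t
  simp only [Pi.add_apply]
  rw [abs_le]
  push_cast
  constructor <;> omega

private lemma p8_near2 (c : Fin 3 → ℕ) (i j : Fin 3) (hij : i ≠ j) : Near 1 c (c + s i + s j) := by
  intro t
  have h := p8_s_le2 i j t hij
  simp only [Pi.add_apply]
  rw [abs_le]
  push_cast
  constructor <;> omega

private lemma p8_ne1 (i : Fin 3) : i ≠ i + 1 := by fin_cases i <;> decide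

private lemma p8_ne2 (i : Fin 3) : i ≠ i + 2 := by fin_cases i <;> decide

private lemma p8_nonempty (hd : RData n B u δ C1) : B.Nonempty := ⟨_, hd.corner 0⟩

private lemma p8_sum_s (i : Fin 3) : s i 0 + s i 1 + s i 2 = 1 := by
  fin_cases i <;> simp [s]

private lemma p8_mem_add {m : ℕ} {c : Fin 3 → ℕ} (hc : c ∈ Lam m) (i : Fin 3) : c + s i ∈ Lam (m + 1) := by
  rw [mem_Lam] at hc ⊢
  have h := p8_sum_s i
  simp only [Pi.add_apply]
  omega

private lemma p8_up (hd : RData n B u δ C1) (hr : 20 ≤ r) {c : Fin 3 → ℕ} (hw : wt r B c ≠ 0) (i : Fin 3) :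
    c + s (i + 1) ∉ B ∧ c + s (i + 2) ∉ B ∧ Act (r - 4) B c := by
  have hpos : 0 < wt r B c := lt_of_le_of_ne (wt_nonneg r B c) (Ne.symm hw)
  have hact := act_of_wt_pos (p8_nonempty hd) (by omega) hpos
  have e : r - 1 + 1 = r := by omega
  refine ⟨?_, ?_, act_mono (by omega) hact⟩
  · exact notMem_of_act (act_near (t := r - 1) (d := 1) (by rw [e]; exact hact) (p8_near1 c (i + 1)))
  · exact notMem_of_act (act_near (t := r - 1) (d := 1) (by rw [e]; exact hact) (p8_near1 c (i + 2)))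

private lemma p8_down (hd : RData n B u δ C1) (hr : 20 ≤ r) {b : Fin 3 → ℕ} (hw : wt r B b ≠ 0) (i : Fin 3) :
    b + s i + s (i + 1) ∉ B ∧ b + s i + s (i + 2) ∉ B ∧ Act (r - 4) B (b + s i) := by
  have hpos : 0 < wt r B b := lt_of_le_of_ne (wt_nonneg r B b) (Ne.symm hw)
  have hact := act_of_wt_pos (p8_nonempty hd) (by omega) hpos
  have e : r - 1 + 1 = r := by omega
  refine ⟨?_, ?_, ?_⟩
  · exact notMem_of_act (act_near (t := r - 1) (d := 1) (by rw [e]; exact hact) (p8_near2 b i (i + 1) (p8_ne1 i)))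
  · exact notMem_of_act (act_near (t := r - 1) (d := 1) (by rw [e]; exact hact) (p8_near2 b i (i + 2) (p8_ne2 i)))
  · have h1 : Act (r - 1) B (b + s i) :=
      act_near (t := r - 1) (d := 1) (by rw [e]; exact hact) (p8_near1 b i)
    exact act_mono (by omega) h1

/-- facts at an up triangle of nonzero weight -/
private lemma p8_up_term (hd : RData n B u δ C1) (hr : 20 ≤ r) {c : Fin 3 → ℕ} (hc : c ∈ Lam (n + 1)) (i : Fin 3) :
    0 ≤ wt r B c * sg u i c := by
  by_cases hw : wt r B c = 0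
  · rw [hw, zero_mul]
  · obtain ⟨h1, h2, -⟩ := p8_up hd hr hw i
    exact mul_nonneg (wt_nonneg r B c) (hd.sig i c hc h1 h2)

private lemma p8_down_term (hd : RData n B u δ C1) (hr : 20 ≤ r) {b : Fin 3 → ℕ} (hb : b ∈ Lam n) (i : Fin 3) :
    0 ≤ wt r B b * sg u i (b + s i) := by
  by_cases hw : wt r B b = 0
  · rw [hw, zero_mul]
  · obtain ⟨h1, h2, -⟩ := p8_down hd hr hw i
    exact mul_nonneg (wt_nonneg r B b) (hd.sig i (b + s i) (p8_mem_add hb i) h1 h2)

/-- `0 < wt c` implies `Act r B c`, so all the edges of the triangle at `c` have both ends outside `B` (distance `≤ 1`) -/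
theorem EE_nonneg (n : ℕ) (u : (Fin 3 → ℕ) → Fin 3 → ℝ) (r : ℕ) (B : Finset (Fin 3 → ℕ)) : 0 ≤ EE n u (wt r B) := by
  unfold EE
  apply add_nonneg
  · apply Finset.sum_nonneg
    intro c _
    exact mul_nonneg (wt_nonneg r B c) (Finset.sum_nonneg (fun i _ => q_nonneg _))
  · apply Finset.sum_nonneg
    intro b _
    exact mul_nonneg (wt_nonneg r B b) (Finset.sum_nonneg (fun i _ => q_nonneg _))

theorem SS_nonneg (hd : RData n B u δ C1) (hr : 20 ≤ r) : 0 ≤ SS n u (wt r B) := by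
  unfold SS
  apply add_nonneg
  · apply Finset.sum_nonneg
    intro c hc
    rw [Finset.mul_sum]
    exact Finset.sum_nonneg (fun i _ => p8_up_term hd hr hc i)
  · apply Finset.sum_nonneg
    intro b hb
    rw [Finset.mul_sum]
    exact Finset.sum_nonneg (fun i _ => p8_down_term hd hr hb i)

private lemma p8_wall_term (hd : RData n B u δ C1) (hr : 20 ≤ r) (i : Fin 3) {l : Fin 3 → ℕ}
    (hl : l ∈ Lam (n + 2)) (hi : l i = 0) : 0 ≤ wt r B l * u l i := by
  by_cases hw : wt r B l = 0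
  · rw [hw, zero_mul]
  · have hpos : 0 < wt r B l := lt_of_le_of_ne (wt_nonneg r B l) (Ne.symm hw)
    have hact := act_of_wt_pos (p8_nonempty hd) (by omega) hpos
    have h1 := hd.wall i l hl (notMem_of_act hact) hi
    have h2 := hd.dpos
    exact mul_nonneg hpos.le (by linarith)

theorem WW_nonneg (hd : RData n B u δ C1) (hr : 20 ≤ r) : 0 ≤ WW n u (wt r B) := by
  unfold WW
  apply Finset.sum_nonneg
  intro i _
  apply Finset.sum_nonneg
  intro l hl
  rw [mem_filter] at hl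
  exact p8_wall_term hd hr i hl.1 hl.2

/-- a term of the nonnegative sum `SS`: if `Act (2r) B c` then `wt r B c = 1` -/
theorem sg_le_SS (hd : RData n B u δ C1) (hr : 20 ≤ r) (i : Fin 3) {c : Fin 3 → ℕ} (hc : c ∈ Lam (n + 1))
    (h : Act r B c) : sg u i c ≤ SS n u (wt r B) := by
  have hw : wt r B c = 1 := wt_one_of_act (p8_nonempty hd) (by omega) h
  have h1 : wt r B c * sg u i c ≤ wt r B c * ∑ i, sg u i c := by
    rw [Finset.mul_sum]
    exact Finset.single_le_sum (f := fun i => wt r B c * sg u i c) (fun i _ => p8_up_term hd hr hc i) (mem_univ i)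
  have h2 : wt r B c * ∑ i, sg u i c ≤ ∑ c ∈ Lam (n + 1), wt r B c * ∑ i, sg u i c := by
    apply Finset.single_le_sum (f := fun c => wt r B c * ∑ i, sg u i c) _ hc
    intro c hc
    rw [Finset.mul_sum]
    exact Finset.sum_nonneg (fun i _ => p8_up_term hd hr hc i)
  have h3 : 0 ≤ ∑ b ∈ Lam n, wt r B b * ∑ i, sg u i (b + s i) := by
    apply Finset.sum_nonneg
    intro b hb
    rw [Finset.mul_sum]
    exact Finset.sum_nonneg (fun i _ => p8_down_term hd hr hb i)
  rw [hw, one_mul] at h1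
  unfold SS
  rw [hw] at h2
  linarith

theorem u_le_WW (hd : RData n B u δ C1) (hr : 20 ≤ r) (i : Fin 3) {l : Fin 3 → ℕ} (hl : l ∈ Lam (n + 2))
    (hi : l i = 0) (h : Act r B l) : u l i ≤ WW n u (wt r B) := by
  have hw : wt r B l = 1 := wt_one_of_act (p8_nonempty hd) (by omega) h
  have h1 : wt r B l * u l i ≤ ∑ l ∈ (Lam (n + 2)).filter (fun l => l i = 0), wt r B l * u l i := by
    apply Finset.single_le_sum (f := fun l => wt r B l * u l i) _ (mem_filter.2 ⟨hl, hi⟩)
    intro l hl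
    rw [mem_filter] at hl
    exact p8_wall_term hd hr i hl.1 hl.2
  have h2 : ∑ l ∈ (Lam (n + 2)).filter (fun l => l i = 0), wt r B l * u l i ≤ WW n u (wt r B) := by
    unfold WW
    apply Finset.single_le_sum
      (f := fun i => ∑ l ∈ (Lam (n + 2)).filter (fun l => l i = 0), wt r B l * u l i) _ (mem_univ i)
    intro i _
    apply Finset.sum_nonneg
    intro l hl
    rw [mem_filter] at hl
    exact p8_wall_term hd hr i hl.1 hl.2
  rw [hw, one_mul] at h1
  linarith

private lemma p8_Fc_nonneg (n r : ℕ) (B : Finset (Fin 3 → ℕ)) (u : (Fin 3 → ℕ) → Fin 3 → ℝ) : 0 ≤ Fc n r B u := by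
  unfold Fc
  exact mul_nonneg (by positivity) (Finset.sum_nonneg (fun l _ => Real.sqrt_nonneg _))

/-- if the weight changes along `c, c - s i` then `c + s j` is in the collar, `j ≠ i` -/
private lemma p8_collar {c : Fin 3 → ℕ} (hc : c ∈ Lam (n + 1)) (i j : Fin 3) (hij : i ≠ j) (hci : ¬ c i = 0)
    (hw : wt r B c ≠ wt r B (c - s i)) : Collar r B (c + s j) := by
  rw [mem_Lam] at hc
  have hj := p8_sum_s j
  have hi := p8_sum_s i
  by_cases h : wt r B c = wt r B (c + s j)
  · refine ⟨c - s i, ?_, ?_, ?_, ?_⟩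
    · intro t
      have h1 := p8_s_le2 i j t hij
      simp only [Pi.add_apply, Pi.sub_apply]
      rw [abs_le]
      constructor <;> omega
    · simp only [Pi.add_apply, Pi.sub_apply]
      omega
    · have h4 : s i 0 ≤ c 0 ∧ s i 1 ≤ c 1 ∧ s i 2 ≤ c 2 := by
        fin_cases i <;> simp [s] at hci ⊢ <;> omega
      simp only [Pi.add_apply, Pi.sub_apply]
      omega
    · rw [← h]
      exact Ne.symm hw
  · refine ⟨c, ?_, ?_, ?_, h⟩
    · intro t
      have h1 := p8_s_le j t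
      simp only [Pi.add_apply]
      rw [abs_le]
      push_cast
      constructor <;> omega
    · simp only [Pi.add_apply]
      omega
    · simp only [Pi.add_apply]
      omega

private lemma p8_near_sub (c : Fin 3 → ℕ) (i : Fin 3) : Near 1 c (c - s i) := by
  intro t
  have h1 := p8_s_le i t
  simp only [Pi.sub_apply]
  rw [abs_le]
  constructor <;> omega

open Classical in
private lemma p8_interior (hd : RData n B u δ C1) (hr : 20 ≤ r) {Q : ℝ} (hQ0 : 0 ≤ Q)
    (hQ : ∀ l ∈ Lam (n + 2), Collar r B l → √(q (u l)) ≤ Q) (i : Fin 3) :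
    |∑ c ∈ (Lam (n + 1)).filter (fun c => ¬ c i = 0), tau u i c * (wt r B c - wt r B (c - s i))| ≤
      1.2 * Q * Fc n r B u := by
  have hr0 : 0 < r := by omega
  refine (Finset.abs_sum_le_sum_abs _ _).trans ?_
  -- restrict to the terms with a change of the weight
  have h1 : ∑ c ∈ (Lam (n + 1)).filter (fun c => ¬ c i = 0), |tau u i c * (wt r B c - wt r B (c - s i))| =
      ∑ c ∈ ((Lam (n + 1)).filter (fun c => ¬ c i = 0)).filter (fun c => wt r B c ≠ wt r B (c - s i)),
        |tau u i c * (wt r B c - wt r B (c - s i))| := by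
    symm
    apply Finset.sum_filter_of_ne
    intro c _ hne heq
    apply hne
    rw [heq, sub_self, mul_zero, abs_zero]
  rw [h1]
  have h2 : ∀ c ∈ ((Lam (n + 1)).filter (fun c => ¬ c i = 0)).filter (fun c => wt r B c ≠ wt r B (c - s i)),
      |tau u i c * (wt r B c - wt r B (c - s i))| ≤ 1.2 * Q * (1 / ((1 : ℕ) : ℝ)) * √(q (u (c + s (i + 1)))) := by
    intro c hc
    rw [mem_filter, mem_filter] at hc
    obtain ⟨⟨hc1, hc2⟩, hc3⟩ := hc
    have k1 := p8_collar hc1 i (i + 1) (p8_ne1 i) hc2 hc3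
    have k2 := p8_collar hc1 i (i + 2) (p8_ne2 i) hc2 hc3
    have k3 := hQ _ (p8_mem_add hc1 (i + 2)) k2
    have k4 := om_abs_le (u (c + s (i + 1))) (u (c + s (i + 2))) (hd.sum0 _) (hd.sum0 _)
    have k5 : |wt r B c - wt r B (c - s i)| ≤ 1 / ((1 : ℕ) : ℝ) := by
      have := wt_lip (B := B) hr0 (p8_near_sub c i)
      simpa using this
    rw [abs_mul]
    have k6 : |tau u i c| ≤ 1.2 * Q * √(q (u (c + s (i + 1)))) := by
      rw [tau]
      refine k4.trans ?_
      have := mul_le_mul_of_nonneg_left k3 (Real.sqrt_nonneg (q (u (c + s (i + 1)))))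
      linarith
    calc |tau u i c| * |wt r B c - wt r B (c - s i)| ≤ (1.2 * Q * √(q (u (c + s (i + 1))))) * (1 / ((1 : ℕ) : ℝ)) :=
          mul_le_mul k6 k5 (abs_nonneg _) (by positivity)
      _ = 1.2 * Q * (1 / ((1 : ℕ) : ℝ)) * √(q (u (c + s (i + 1)))) := by ring
  refine (Finset.sum_le_sum h2).trans ?_
  rw [← Finset.mul_sum]
  have h3 : ∑ c ∈ ((Lam (n + 1)).filter (fun c => ¬ c i = 0)).filter (fun c => wt r B c ≠ wt r B (c - s i)),
      √(q (u (c + s (i + 1)))) ≤ ∑ l ∈ (Lam (n + 2)).filter (fun l => Collar r B l), √(q (u l)) := by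
    rw [← Finset.sum_image (f := fun l => √(q (u l))) (g := fun c => c + s (i + 1))
      (fun a _ b _ hab => by simpa using hab)]
    apply Finset.sum_le_sum_of_subset_of_nonneg
    · intro l hl
      rw [mem_image] at hl
      obtain ⟨c, hc, rfl⟩ := hl
      rw [mem_filter, mem_filter] at hc
      obtain ⟨⟨hc1, hc2⟩, hc3⟩ := hc
      rw [mem_filter]
      exact ⟨p8_mem_add hc1 (i + 1), p8_collar hc1 i (i + 1) (p8_ne1 i) hc2 hc3⟩
    · intro l _ _
      exact Real.sqrt_nonneg _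
  unfold Fc
  have h4 := mul_le_mul_of_nonneg_left h3 (show 0 ≤ 1.2 * Q * (1 / ((1 : ℕ) : ℝ)) by positivity)
  have e : 1.2 * Q * (1 / ((1 : ℕ) : ℝ) * ∑ l ∈ (Lam (n + 2)).filter (fun l => Collar r B l), √(q (u l))) =
      1.2 * Q * (1 / ((1 : ℕ) : ℝ)) * ∑ l ∈ (Lam (n + 2)).filter (fun l => Collar r B l), √(q (u l)) := by ring
  rw [e]
  exact h4

/-- interior part of (A): the terms with `1 ≤ c i` and `wt c ≠ wt (c - s i)`: then both ends of the edge `(i,c)` are collar labels,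
`|wt c - wt (c - s i)| ≤ 1/r`, `|tau| ≤ 1.2 sqrt q sqrt q ≤ 1.2 Q sqrt q(u (c + s (i+1)))` (`om_abs_le`), sum `≤ 3.6 Q Fc`. -/
theorem OO_bound (hd : RData n B u δ C1) (hr : 20 ≤ r) {η Wst Q : ℝ} (hη0 : 0 ≤ η) (hW0 : 0 ≤ Wst) (hQ0 : 0 ≤ Q)
    (hη : ∀ i, ∀ c ∈ Lam (n + 1), Act (r - 4) B c → sg u i c ≤ η)
    (hW : ∀ i, ∀ l ∈ Lam (n + 2), l i = 0 → Act (r - 4) B l → u l i ≤ Wst)
    (hQ : ∀ l ∈ Lam (n + 2), Collar r B l → √(q (u l)) ≤ Q) :
    |OO n u (wt r B)| ≤
      2 * (η + Wst ^ 2) * (WW n u (wt r B) + 4 * Fc n r B u) + 14 * Q * Fc n r B u := by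
  have hwall := wall_part hd hr hη0 hW0 hQ0 hη hW hQ
  have hsplit : OO n u (wt r B) =
      ∑ i, ∑ c ∈ (Lam (n + 1)).filter (fun c => c i = 0), tau u i c * wt r B c +
      ∑ i, ∑ c ∈ (Lam (n + 1)).filter (fun c => ¬ c i = 0), tau u i c * (wt r B c - wt r B (c - s i)) := by
    rw [ident_A, ← Finset.sum_add_distrib]
    apply Finset.sum_congr rfl
    intro i _
    rw [← Finset.sum_filter_add_sum_filter_not (Lam (n + 1)) (fun c => c i = 0)]
    congr 1
    · apply Finset.sum_congr rfl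
      intro c hc
      rw [mem_filter] at hc
      rw [if_neg (by omega), sub_zero]
    · apply Finset.sum_congr rfl
      intro c hc
      rw [mem_filter] at hc
      rw [if_pos (by omega)]
  have hint : |∑ i, ∑ c ∈ (Lam (n + 1)).filter (fun c => ¬ c i = 0),
      tau u i c * (wt r B c - wt r B (c - s i))| ≤ 3.6 * Q * Fc n r B u := by
    refine (Finset.abs_sum_le_sum_abs _ _).trans ?_
    rw [Fin.sum_univ_three]
    have a0 := p8_interior hd hr hQ0 hQ 0
    have a1 := p8_interior hd hr hQ0 hQ 1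
    have a2 := p8_interior hd hr hQ0 hQ 2
    linarith
  rw [hsplit]
  refine (abs_add_le _ _).trans ?_
  have hF := p8_Fc_nonneg n r B u
  have hQF := mul_nonneg hQ0 hF
  linarith

/-- the pointwise inequality `sum q ≤ 3 om + η sum sg + (sum q)/100` on a triangle -/
private lemma p8_triangle (d : Fin 3 → Fin 3 → ℝ) (h0 : ∀ t, d 0 t + d 1 t + d 2 t = 0)
    (hs : ∀ i, d i 0 + d i 1 + d i 2 = 0) {η : ℝ} (sig : Fin 3 → ℝ)
    (hsig : ∀ i, sig i = g i (d i) + q (d i)) (h1 : ∀ i, 0 ≤ sig i) (h2 : ∀ i, sig i ≤ η)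
    (h3 : ∀ i, q (d i) ≤ 1 / 100) :
    ∑ i, q (d i) ≤ 3 * om (d 0) (d 1) + η * ∑ i, sig i + (1 / 100) * ∑ i, q (d i) := by
  have key := ident_a d h0 hs
  have hg : ∀ i, g i (d i) ^ 2 ≤ η * sig i + (1 / 100) * q (d i) := by
    intro i
    have e : g i (d i) = sig i - q (d i) := by rw [hsig i]; ring
    rw [e]
    have a1 := h1 i
    have a2 := h2 i
    have a3 := h3 i
    have a4 := q_nonneg (d i)
    nlinarith [mul_nonneg a1 a4, mul_nonneg a1 (sub_nonneg.2 a2), mul_nonneg a4 (sub_nonneg.2 a3)]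
  have h4 : ∑ i, g i (d i) ^ 2 ≤ η * ∑ i, sig i + (1 / 100) * ∑ i, q (d i) := by
    rw [Finset.mul_sum, Finset.mul_sum, ← Finset.sum_add_distrib]
    exact Finset.sum_le_sum (fun i _ => hg i)
  have h5 := sq_nonneg (∑ i, g i (d i))
  linarith

private lemma p8_EE_le (hd : RData n B u δ C1) (hr : 20 ≤ r) {η : ℝ}
    (hη : ∀ i, ∀ c ∈ Lam (n + 1), Act (r - 4) B c → sg u i c ≤ η) :
    EE n u (wt r B) ≤ 3 * OO n u (wt r B) + η * SS n u (wt r B) + (1 / 100) * EE n u (wt r B) := by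
  have hup : ∀ c ∈ Lam (n + 1), wt r B c * ∑ i, q (ed u i c) ≤
      3 * (wt r B c * om (ed u 0 c) (ed u 1 c)) + η * (wt r B c * ∑ i, sg u i c) +
        (1 / 100) * (wt r B c * ∑ i, q (ed u i c)) := by
    intro c hc
    by_cases hw : wt r B c = 0
    · rw [hw]; simp
    · have h := p8_triangle (fun i => ed u i c)
        (by
          intro t
          simp only [ed, fin3_11, fin3_12, fin3_21, fin3_22, zero_add]
          ring)
        (by
          intro i
          simp only [ed]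
          have h1 := hd.sum0 (c + s (i + 1))
          have h2 := hd.sum0 (c + s (i + 2))
          linarith)
        (η := η) (fun i => sg u i c) (fun i => rfl)
        (fun i => hd.sig i c hc (p8_up hd hr hw i).1 (p8_up hd hr hw i).2.1)
        (fun i => hη i c hc (p8_up hd hr hw i).2.2)
        (fun i => hd.small i c hc (p8_up hd hr hw i).1 (p8_up hd hr hw i).2.1)
      have h2 := mul_le_mul_of_nonneg_left h (wt_nonneg r B c)
      linarith
  have hdown : ∀ b ∈ Lam n, wt r B b * ∑ i, q (ed u i (b + s i)) ≤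
      3 * (wt r B b * om (ed u 0 (b + s 0)) (ed u 1 (b + s 1))) + η * (wt r B b * ∑ i, sg u i (b + s i)) +
        (1 / 100) * (wt r B b * ∑ i, q (ed u i (b + s i))) := by
    intro b hb
    by_cases hw : wt r B b = 0
    · rw [hw]; simp
    · have h := p8_triangle (fun i => ed u i (b + s i))
        (by
          intro t
          simp only [ed, fin3_11, fin3_12, fin3_21, fin3_22, zero_add]
          have e1 : b + s 1 + s 0 = b + s 0 + s 1 := by abel
          have e2 : b + s 2 + s 0 = b + s 0 + s 2 := by abel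
          have e3 : b + s 2 + s 1 = b + s 1 + s 2 := by abel
          rw [e1, e2, e3]
          ring)
        (by
          intro i
          simp only [ed]
          have h1 := hd.sum0 (b + s i + s (i + 1))
          have h2 := hd.sum0 (b + s i + s (i + 2))
          linarith)
        (η := η) (fun i => sg u i (b + s i)) (fun i => rfl)
        (fun i => hd.sig i _ (p8_mem_add hb i) (p8_down hd hr hw i).1 (p8_down hd hr hw i).2.1)
        (fun i => hη i _ (p8_mem_add hb i) (p8_down hd hr hw i).2.2)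
        (fun i => hd.small i _ (p8_mem_add hb i) (p8_down hd hr hw i).1 (p8_down hd hr hw i).2.1)
      have h2 := mul_le_mul_of_nonneg_left h (wt_nonneg r B b)
      linarith
  have s1 := Finset.sum_le_sum hup
  have s2 := Finset.sum_le_sum hdown
  simp only [Finset.sum_add_distrib, ← Finset.mul_sum] at s1 s2
  unfold EE OO SS
  linarith

/-- `EE ≤ 3 |OO| + sum_T wt_T sum_i g_i(d_i)^2` (`ident_a` with `d_i = ed u i c`, resp. `d_i = ed u i (b + s i)`), and
`g = sg - q`, `0 ≤ sg ≤ η`, `0 ≤ q ≤ 1/100` give `g^2 ≤ η sg + q/100`. With `SS + 6 WW ≤ EE + 12 Fc` (`SS_EE_WW`):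
`EE ≤ 3 (2 (η+W²) ((EE + 12 Fc)/6 + 4 Fc) + 14 Q Fc) + η (EE + 12 Fc) + EE/100`. -/
theorem one_scale (hd : RData n B u δ C1) (hr : 20 ≤ r) {η Wst Q : ℝ} (hη0 : 0 ≤ η) (hW0 : 0 ≤ Wst) (hQ0 : 0 ≤ Q)
    (hη : ∀ i, ∀ c ∈ Lam (n + 1), Act (r - 4) B c → sg u i c ≤ η)
    (hW : ∀ i, ∀ l ∈ Lam (n + 2), l i = 0 → Act (r - 4) B l → u l i ≤ Wst)
    (hQ : ∀ l ∈ Lam (n + 2), Collar r B l → √(q (u l)) ≤ Q) (hs : η + Wst ^ 2 ≤ 1 / 5) :
    EE n u (wt r B) ≤ 100 * (η + Wst ^ 2 + Q) * Fc n r B u ∧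
      SS n u (wt r B) + 6 * WW n u (wt r B) ≤ EE n u (wt r B) + 12 * Fc n r B u := by
  have hOO := OO_bound hd hr hη0 hW0 hQ0 hη hW hQ
  have hSE := SS_EE_WW hd hr
  have hEE := p8_EE_le hd hr hη
  have hE0 := EE_nonneg n u r B
  have hS0 := SS_nonneg hd hr
  have hW0' := WW_nonneg hd hr
  have hF0 := p8_Fc_nonneg n r B u
  generalize EE n u (wt r B) = E at *
  generalize SS n u (wt r B) = S at *
  generalize WW n u (wt r B) = W at *
  generalize OO n u (wt r B) = O at *
  generalize Fc n r B u = F at *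
  have h2 : S + 6 * W ≤ E + 12 * F := by
    have := (abs_le.1 hSE).2
    linarith
  refine ⟨?_, h2⟩
  have hθ0 : 0 ≤ Wst ^ 2 := sq_nonneg _
  generalize Wst ^ 2 = w2 at *
  have h3 : O ≤ 2 * (η + w2) * (W + 4 * F) + 14 * Q * F := (le_abs_self O).trans hOO
  have hWle : W ≤ (E + 12 * F) / 6 := by linarith
  have hSle : S ≤ E + 12 * F := by linarith
  have h4 : 2 * (η + w2) * (W + 4 * F) ≤ 2 * (η + w2) * ((E + 12 * F) / 6 + 4 * F) := by
    apply mul_le_mul_of_nonneg_left _ (by linarith)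
    linarith
  have h5 : η * S ≤ η * (E + 12 * F) := mul_le_mul_of_nonneg_left hSle hη0
  have h6 : (η + w2) * E ≤ 1 / 5 * E := mul_le_mul_of_nonneg_right hs hE0
  have h7 : η * E ≤ (η + w2) * E := mul_le_mul_of_nonneg_right (by linarith) hE0
  have h8 : η * F ≤ (η + w2) * F := mul_le_mul_of_nonneg_right (by linarith) hF0
  have h9 : 0 ≤ (η + w2) * F := mul_nonneg (by linarith) hF0
  have h10 : 0 ≤ Q * F := mul_nonneg hQ0 hF0
  nlinarith

end H24.Sh
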